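import Pool.Agent.Lib.MP_813db1_ag.VH.HB.St
import Pool.Agent.Lib.MP_813db1_ag.VH.Kb
import Pool.Agent.Lib.MP_813db1_ag.VH.Rig
import Pool.Agent.Lib.MP_813db1_ag.VH.Frm
import Pool.Agent.Lib.MP_813db1_ag.AS.Big

/-! The canonical class of the base is a Kaehler class, hence big. -/

namespace Pool.Agent.Lib.MP_813db1_ag.VH.HB

open Pool.Agent.Lib.MP_813db1_ag.HS Pool.Agent.Lib.MP_813db1_ag.AS
open MeasureTheory Complex Matrix Filter Topology Set Metric
open scoped ContDiff ComplexOrder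

variable {ι X Y G : Type} [Fintype ι] [DecidableEq ι] [Nonempty ι] [TopologicalSpace X]
  [T2Space X] [CompactSpace X] [TopologicalSpace Y] [Group G] [MulAction G Y]
  {M : Atl ι X} {p : Y → X}

namespace Amp

/-- one step of the iteration. -/
theorem step {τ β : X → Mat ι} {C s t : ℝ} (hβ : M.IsK β) (cτ : M.ClF τ)
    (pτ : ∀ x, (τ x).PosSemidef)
    (hC : ∀ h, M.IsK h → (∀ x, (M.ricF h x + h x).PosSemidef) →
      ∀ x, ((C : ℂ) • h x - τ x).PosSemidef)
    (h0 : 0 ≤ t) (h1 : s ≤ t) (h2 : (t - s) * C < 1) (k : KCl M β fun x => (t : ℂ) • τ x) :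
    KCl M β fun x => (s : ℂ) • τ x := by
  borelize X
  have A := AY.repA' ι X M
  have B := AY.repB' ι X M
  obtain ⟨w, w1, w2⟩ := k
  obtain ⟨v, v1, v2, -, v4⟩ := mge hβ (θ := fun x => -M.ricF β x + (t : ℂ) • τ x) (by
    simpa using A.clF_add _ _ (A.clF_smul (-1) _ (B.ric_cl β hβ)) (A.clF_smul t τ cτ)) w1 w2
  have k1 := hC _ v2 fun x => by
    rw [v4]
    convert psd_smul (pτ x) h0 using 1
    abel
  refine ⟨v, v1, fun x => ?_⟩
  have k2 := ((((A.isK_iff _).1 v2).2 x).smul (a := ((1 - (t - s) * C : ℝ) : ℂ))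
    (zero_lt_real.2 (by linarith))).add_posSemidef (psd_smul (k1 x) (sub_nonneg.2 h1))
  convert k2 using 1
  push_cast
  module

/-- the canonical class is a Kaehler class. -/
theorem kzero {τ β : X → Mat ι} {C : ℝ} (hβ : M.IsK β) (cτ : M.ClF τ)
    (pτ : ∀ x, (τ x).PosSemidef) (C0 : 0 < C)
    (hC : ∀ h, M.IsK h → (∀ x, (M.ricF h x + h x).PosSemidef) →
      ∀ x, ((C : ℂ) • h x - τ x).PosSemidef)
    (hr : ∀ x, M.ricF β x = -β x + τ x) :
    ∃ u, M.Ck ∞ u ∧ ∀ x, (-M.ricF β x + M.ddc u x).PosDef := by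
  have A := AY.repA' ι X M
  have B := AY.repB' ι X M
  obtain ⟨ε, e0, e1⟩ : ∃ ε : ℝ, 0 < ε ∧ ε * C < 1 :=
    ⟨1 / (2 * C), by positivity, by field_simp; norm_num⟩
  have ind : ∀ n : ℕ, ∀ s : ℝ, 0 ≤ s → s ≤ 1 → 1 - n * ε ≤ s →
      KCl M β fun x => (s : ℂ) • τ x := by
    intro n
    induction n with
    | zero =>
      intro s _ s1 s2
      obtain rfl : s = 1 := le_antisymm s1 (by simpa using s2)
      refine ⟨fun _ => 0, fun e _ z _ => contDiffAt_const, fun x => ?_⟩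
      rw [B.ddc_const, hr]
      convert ((A.isK_iff β).1 hβ).2 x using 1
      push_cast
      module
    | succ n ih =>
      intro s s0 s1 s2
      push_cast at s2
      have n0 : 0 ≤ (n : ℝ) * ε := by positivity
      have t1 : s ≤ min 1 (s + ε) := le_min s1 (by linarith)
      have t2 : min 1 (s + ε) - s ≤ ε := by linarith [min_le_right 1 (s + ε)]
      exact step hβ cτ pτ hC (s0.trans t1) t1
        ((mul_le_mul_of_nonneg_right t2 C0.le).trans_lt e1)
        (ih _ (s0.trans t1) (min_le_left _ _) (le_min (by linarith) (by linarith)))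
  obtain ⟨n, hn⟩ := exists_nat_ge (1 / ε)
  rw [div_le_iff₀ e0] at hn
  obtain ⟨u, u1, u2⟩ := ind n 0 le_rfl zero_le_one (by linarith)
  exact ⟨u, u1, fun x => by simpa using u2 x⟩

end Amp

theorem ampS [ConnectedSpace X] (hq : IsQuotientCoveringMap p G) (hS : SchS M p G) :
    AmpS M p G := by
  intro r _ _ D τ β hP hτ hN hβ hr
  borelize X
  have A := AY.repA' ι X M
  have B := AY.repB' ι X M
  obtain ⟨cτ, pτ⟩ := tau_ok hq (frmS hq) hP hτ
  obtain ⟨C, C0, hC⟩ := hS r D τ hP hτ hN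
  obtain ⟨u, u1, u2⟩ := Amp.kzero hβ cτ pτ C0 hC hr
  obtain ⟨⟨μ, hμ⟩, hV⟩ := AY.volS' ι X M β hβ
  have V := hV μ hμ
  have pβ := ((A.isK_iff β).1 hβ).2
  have c0 : M.ClF fun x => -M.ricF β x := by simpa using A.clF_smul (-1) _ (B.ric_cl β hβ)
  have hk : M.IsK fun x => -M.ricF β x + M.ddc u x :=
    (A.isK_iff _).2 ⟨A.clF_add _ _ c0 (B.ddc_cl u u1), u2⟩
  refine bigS ι X M β μ hβ hμ (solA ι X M β hβ fun ε hε => ⟨u, u1, fun x =>
    (u2 x).posSemidef.add (psd_smul (pβ x).posSemidef hε.le)⟩) ?_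
  have := V.fin
  have := V.pos
  have cr : Continuous (rat (fun x => -M.ricF β x + M.ddc u x) β) :=
    A.cont _ (Schw.ck_le (A.ck_rat _ β (fun e he => (hk e he).1.1) hβ) 0)
  have e := invAll ι X M β _ μ u hβ hμ c0 u1
  have e2 : M.vol μ β 0 = ∫ x, rat (fun y => -M.ricF β y) β x ∂μ := by
    simp [Atl.vol]
  rw [e2, ← e]
  exact cr.integral_pos_of_hasCompactSupport_nonneg_nonzero (HasCompactSupport.of_compactSpace _)
    (fun x => (rat_pos hβ hk x).le) (x := Classical.arbitrary X) (rat_pos hβ hk _).ne'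

end Pool.Agent.Lib.MP_813db1_ag.VH.HB
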