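import Pool.Agent.Lib.MP_813db1_ag.VH.HB.St

/-! The complex structure of the space of leaves. -/

namespace Pool.Agent.Lib.MP_813db1_ag.VH.HB

open Pool.Agent.Lib.MP_813db1_ag.HS Pool.Agent.Lib.MP_813db1_ag.VH.S8
open Filter Topology Set

namespace At

variable {G F τ Z Bs Γ : Type} [Group G] [NormedAddCommGroup F] [NormedSpace ℝ F] [Fintype τ]
  [TopologicalSpace Z] [TopologicalSpace Bs] [Group Γ] [MulAction Γ Z] {P : PG G F (V τ)}
  {H : Subgroup G} {q : Z → Bs} {θ : G → P.κ → V τ → Z} {π : H →* Γ}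

theorem ex (h : Lf P H q θ π) (γ : G) {k : P.κ} {y : V τ} (hy : y ∈ P.B k) :
    ∃ e : Ch τ Bs, y ∈ e.target ∧ ∀ w ∈ e.target, w ∈ P.B k ∧ e.symm w = q (θ γ k w) := by
  obtain ⟨e, e1, e2⟩ := h.chart γ k
  obtain ⟨φ, φ1, φ2⟩ := h.hq.isCoveringMap.isLocalHomeomorph (θ γ k y)
  refine ⟨φ.symm.trans e, ⟨e1 ▸ hy, ?_⟩, fun w hw => ?_⟩
  · change e.symm y ∈ φ.source
    rwa [e2 y hy]
  · have hw' : w ∈ P.B k := e1 ▸ hw.1
    refine ⟨hw', ?_⟩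
    change φ (e.symm w) = _
    rw [e2 w hw', φ2]

theorem tr (h : Lf P H q θ π)
    (ha : ∀ k l γ y y', P.Rel k l γ y y' → AnalyticAt ℂ (P.rm k l γ) y) {e e' : Ch τ Bs} {γ δ : G}
    {k l : P.κ} (he : ∀ w ∈ e.target, w ∈ P.B k ∧ e.symm w = q (θ γ k w))
    (he' : ∀ w ∈ e'.target, w ∈ P.B l ∧ e'.symm w = q (θ δ l w)) {x : Bs} (hx : x ∈ e.source)
    (hx' : x ∈ e'.source) : AnalyticAt ℂ (e' ∘ e.symm) (e x) := by
  obtain ⟨u1, u2⟩ := he _ (e.map_source hx)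
  obtain ⟨v1, v2⟩ := he' _ (e'.map_source hx')
  rw [e.left_inv hx] at u2
  rw [e'.left_inv hx'] at v2
  obtain ⟨g, hg⟩ := h.hq.apply_eq_iff_mem_orbit.1 (u2.symm.trans v2)
  obtain ⟨η, rfl⟩ := h.sur g
  have r := (h.rel γ k (η * δ) l _ u1 _ v1).1 (hg.symm.trans (h.eqv η δ l _ v1))
  have a := ha _ _ _ _ _ r
  obtain ⟨φ, -, -, hφ⟩ := P.loc r
  have c := a.continuousAt
  rw [ContinuousAt, PG.rm_eq r] at c
  refine a.congr ?_
  filter_upwards [hφ, c (e'.open_target.mem_nhds (e'.map_source hx')),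
    e.open_target.mem_nhds (e.map_source hx)] with w w1 w2 w3
  have w4 := PG.rel_rm w1
  obtain ⟨m1, m2⟩ := P.mem w4
  rw [Function.comp_apply, (he w w3).2, (h.rel γ k (η * δ) l _ m1 _ m2).2 w4, ← h.eqv η δ l _ m2,
    h.hq.map_smul, ← (he' _ w2).2, e'.right_inv w2]

end At

theorem atS : AtS := by
  intro G F τ Z Bs Γ _ _ _ _ _ _ _ _ _ P H q θ π h ha
  have ex : ∀ b : Bs, ∃ (e : Ch τ Bs) (γ : G) (k : P.κ), b ∈ e.source ∧
      ∀ w ∈ e.target, w ∈ P.B k ∧ e.symm w = q (θ γ k w) := fun b => by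
    obtain ⟨z, rfl⟩ := h.hq.surjective b
    obtain ⟨γ, k, y, hy, rfl⟩ := h.cov z
    obtain ⟨e, e1, e2⟩ := At.ex h γ hy
    exact ⟨e, γ, k, (e2 y e1).2 ▸ e.map_target e1, e2⟩
  choose ch γ0 k0 h1 h2 using ex
  have h0 : ∀ (e : Ch τ Bs) γ k, (∀ w ∈ e.target, w ∈ P.B k ∧ e.symm w = q (θ γ k w)) →
      e ∈ {e : Ch τ Bs | ∀ x ∈ e.source, AnalyticAt ℂ (e ∘ (ch x).symm) (ch x x) ∧
        AnalyticAt ℂ (ch x ∘ e.symm) (e x)} := fun e γ k he x hx =>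
    ⟨At.tr h ha (h2 x) he (h1 x) hx, At.tr h ha he (h2 x) hx (h1 x)⟩
  refine ⟨⟨_, ch, fun x => h0 _ _ _ (h2 x), h1, fun e he e' he' x hx hx' => ?_, fun e he => he⟩,
    fun γ k y hy => ?_⟩
  · have k1 := (he' x hx').1
    rw [show ch x x = (ch x ∘ e.symm) (e x) by rw [Function.comp_apply, e.left_inv hx]] at k1
    refine (k1.comp (he x hx).2).congr ?_
    have k2 := e.continuousAt_symm (e.map_source hx)
    rw [ContinuousAt, e.left_inv hx] at k2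
    filter_upwards [k2 ((ch x).open_source.mem_nhds (h1 x))] with z hz
    simp only [Function.comp_apply]
    rw [(ch x).left_inv hz]
  · obtain ⟨e, e1, e2⟩ := At.ex h γ hy
    exact ⟨e, h0 e γ k e2, e1, Filter.mem_of_superset (e.open_target.mem_nhds e1)
      fun w hw => (e2 w hw).2⟩

end Pool.Agent.Lib.MP_813db1_ag.VH.HB
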