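import Pool.Agent.Lib.MP_813db1_ag.VH.HB.St
import Pool.Agent.Lib.MP_bbd4b9_ag.AL.DBog

/-! The pull back of the pluricanonical sections of the base is a Bogomolov sheaf. -/

namespace Pool.Agent.Lib.MP_813db1_ag.VH.HB

open Pool.Agent.Lib.MP_813db1_ag.HS Pool.Agent.Lib.MP_813db1_ag.AS
open Pool.Agent.Lib.MP_bbd4b9_ag.SP Pool.Agent.Lib.MP_bbd4b9_ag.AL
open Complex Matrix Filter Topology Set Module
open scoped ContDiff Manifold

set_option linter.unusedSectionVars false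

noncomputable section

namespace BogA

section alg

variable {κ W W' : Type} [AddCommGroup W] [Module ℂ W] [AddCommGroup W'] [Module ℂ W']

/-- tensor powers of an alternating form. -/
def tp (m : ℕ) (l : W [⋀^κ]→ₗ[ℂ] ℂ) : MultilinearMap ℂ (fun _ : Fin m × κ => W) ℂ :=
  ((MultilinearMap.mkPiAlgebra ℂ (Fin m) ℂ).compMultilinearMap
    fun _ => l.toMultilinearMap).domDomCongr (Equiv.sigmaEquivProd _ _)

theorem tp_apply (m : ℕ) (l : W [⋀^κ]→ₗ[ℂ] ℂ) (v : Fin m × κ → W) :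
    tp m l v = ∏ i, l fun k => v (i, k) := rfl

theorem factor {D D' : W →ₗ[ℂ] W'} (h : Function.Surjective D') (k : ∀ v, D' v = 0 → D v = 0) :
    ∃ A : W' →ₗ[ℂ] W', ∀ v, D v = A (D' v) := by
  obtain ⟨R, hR⟩ := D'.exists_rightInverse_of_surjective (LinearMap.range_eq_top.2 h)
  refine ⟨D ∘ₗ R, fun v => ?_⟩
  have e : D' (R (D' v)) = D' v := LinearMap.congr_fun hR (D' v)
  have := k (v - R (D' v)) (by rw [map_sub, e, sub_self])
  rwa [map_sub, sub_eq_zero] at this

variable (τ : Type) [Fintype τ] [DecidableEq τ]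

/-- the standard basis. -/
def bs : Basis (Fin (Fintype.card τ)) ℂ (V τ) := (Pi.basisFun ℂ τ).reindex (Fintype.equivFin τ)

variable {τ}

theorem bs_det (w : Fin (Fintype.card τ) → V τ) :
    (bs τ).det w = (Matrix.of fun i k => w k ((Fintype.equivFin τ).symm i)).det := by
  rw [Basis.det_apply]
  refine congrArg det (Matrix.ext fun i k => ?_)
  simp [bs, Basis.toMatrix_apply]

theorem bs_lin (A : V τ →ₗ[ℂ] V τ) (w : Fin (Fintype.card τ) → V τ) :
    (bs τ).det (fun k => A (w k)) = LinearMap.det A * (bs τ).det w := (bs τ).det_comp A w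

theorem bs_jac (φ : V τ → V τ) (z : V τ) (w : Fin (Fintype.card τ) → V τ) :
    (bs τ).det (fun k => fderiv ℂ φ z (w k)) = (jac φ z).det * (bs τ).det w := by
  have e : jac φ z = LinearMap.toMatrix' (fderiv ℂ φ z : V τ →ₗ[ℂ] V τ) := by
    ext i j
    simp [jac, LinearMap.toMatrix'_apply]
  rw [e, LinearMap.det_toMatrix']
  exact bs_lin (fderiv ℂ φ z : V τ →ₗ[ℂ] V τ) w

theorem bs_an {ι : Type} [Fintype ι] {g : V ι → V τ} {z : V ι} (h : AnalyticAt ℂ g z)
    (v : Fin (Fintype.card τ) → V ι) :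
    AnalyticAt ℂ (fun w => (bs τ).det fun k => fderiv ℂ g w (v k)) z := by
  simp only [bs_det, det_apply', of_apply]
  exact Finset.analyticAt_fun_sum _ fun σ _ => analyticAt_const.mul
    (Finset.analyticAt_fun_prod _ fun i _ => analyticAt_pi_iff.1
      (((ContinuousLinearMap.apply ℂ (V τ) (v i)).analyticAt _).comp h.fderiv) _)

end alg

variable {ι τ X' Bs : Type} [Fintype ι] [Fintype τ] [DecidableEq τ] [TopologicalSpace X']
  [TopologicalSpace Bs] (N : Atl τ Bs) (F : X' → Bs)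

/-- the differential of the projection. -/
def dd (e : Ch ι X') (z : V ι) : V ι →L[ℂ] V τ := fderiv ℂ (N.ch (F (e.symm z)) ∘ F ∘ e.symm) z

/-- the pull back of the determinant. -/
def fm (e : Ch ι X') (z : V ι) : V ι [⋀^Fin (Fintype.card τ)]→ₗ[ℂ] ℂ :=
  (bs τ).det.compLinearMap (dd N F e z)

theorem fm_apply (e : Ch ι X') (z : V ι) (v : Fin (Fintype.card τ) → V ι) :
    fm N F e z v = (bs τ).det fun k => dd N F e z (v k) := rfl

/-- the pull back of a section. -/
def pt (a : ℕ) (σ : Bs → ℂ) (e : Ch ι X') (z : V ι) :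
    MultilinearMap ℂ (fun _ : Fin a × Fin (Fintype.card τ) => V ι) ℂ :=
  σ (F (e.symm z)) • tp a (fm N F e z)

theorem pt_apply (a : ℕ) (σ : Bs → ℂ) (e : Ch ι X') (z : V ι)
    (v : Fin a × Fin (Fintype.card τ) → V ι) :
    pt N F a σ e z v = σ (F (e.symm z)) * ∏ i, (bs τ).det fun k => dd N F e z (v (i, k)) := rfl

variable {N F}

theorem pt_hol {a : ℕ} {σ : Bs → ℂ} (hσ : N.HolS a σ) {e : Ch ι X'} {z : V ι}
    (hc : ∀ᶠ w in 𝓝 z, ContinuousAt (F ∘ e.symm) w)
    (ha : AnalyticAt ℂ (N.ch (F (e.symm z)) ∘ F ∘ e.symm) z)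
    (v : Fin a × Fin (Fintype.card τ) → V ι) :
    DifferentiableAt ℂ (fun w => pt N F a σ e w v) z := by
  set e0 := N.ch (F (e.symm z)) with h0
  have he : e0 ∈ N.A := N.ch_mem _
  have hs : ∀ᶠ w in 𝓝 z, F (e.symm w) ∈ e0.source :=
    hc.self_of_nhds.eventually_mem (e0.open_source.mem_nhds (N.mem _))
  have d1 : DifferentiableAt ℂ (fun w => N.rep a σ e0 ((e0 ∘ F ∘ e.symm) w) *
      ∏ i, (bs τ).det fun k => fderiv ℂ (e0 ∘ F ∘ e.symm) w (v (i, k))) z :=
    (((hσ e0 he).differentiableAt (e0.open_target.mem_nhds (e0.map_source hs.self_of_nhds))).comp z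
      ha.differentiableAt).mul (Finset.analyticAt_fun_prod _ fun i _ =>
        bs_an ha fun k => v (i, k)).differentiableAt
  refine d1.congr_of_eventuallyEq ?_
  filter_upwards [hs.eventually_nhds, ha.eventually_analyticAt] with w w1 w2
  have w3 := w1.self_of_nhds
  have e1 : N.ch (F (e.symm w)) ∘ F ∘ e.symm =ᶠ[𝓝 w]
      (N.ch (F (e.symm w)) ∘ e0.symm) ∘ e0 ∘ F ∘ e.symm := w1.mono fun u hu => by
    simp only [Function.comp_apply, e0.left_inv hu]
  have e2 : ∀ u, dd N F e w u = fderiv ℂ (N.ch (F (e.symm w)) ∘ e0.symm) (e0 (F (e.symm w)))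
      (fderiv ℂ (e0 ∘ F ∘ e.symm) w u) := fun u => by
    rw [dd, e1.fderiv_eq, fderiv_comp w
      (N.hol e0 he _ (N.ch_mem _) _ w3 (N.mem _)).differentiableAt w2.differentiableAt]
    rfl
  simp only [pt_apply, e2, bs_jac, Finset.prod_mul_distrib, Finset.prod_const, Finset.card_univ,
    Fintype.card_fin, Function.comp_apply, Atl.rep, tj, e0.left_inv w3]
  ring

theorem dd_tr {e e' : Ch ι X'} {x : X'} (hx : x ∈ e.source) (hx' : x ∈ e'.source)
    (ha : DifferentiableAt ℂ (N.ch (F (e'.symm (e' x))) ∘ F ∘ e'.symm) (e' x))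
    (ht : DifferentiableAt ℂ (e' ∘ e.symm) (e x)) (v : V ι) :
    dd N F e (e x) v = dd N F e' (e' x) (fderiv ℂ (e' ∘ e.symm) (e x) v) := by
  have e1 : N.ch (F x) ∘ F ∘ e.symm =ᶠ[𝓝 (e x)] (N.ch (F x) ∘ F ∘ e'.symm) ∘ e' ∘ e.symm := by
    filter_upwards [(e.tendsto_symm hx).eventually (e'.open_source.mem_nhds hx')] with u hu
    simp only [Function.comp_apply, e'.left_inv hu]
  have e2 : (e' ∘ e.symm) (e x) = e' x := by rw [Function.comp_apply, e.left_inv hx]
  rw [e'.left_inv hx'] at ha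
  rw [dd, dd, e.left_inv hx, e'.left_inv hx', e1.fderiv_eq, fderiv_comp _ (e2 ▸ ha) ht, e2]
  rfl

end BogA

open BogA

theorem bogS {ι X Y G : Type} [Fintype ι] [DecidableEq ι] [TopologicalSpace X] [T2Space X]
    [CompactSpace X] [ChartedSpace (ι → ℂ) X] [IsManifold 𝓘(ℂ, ι → ℂ) ω X] [TopologicalSpace Y]
    [ConnectedSpace Y] [Group G] [MulAction G Y] {M : Atl ι X} {p : Y → X}
    (hA : atlas (ι → ℂ) X ⊆ M.A) (_hch : ∀ x, M.ch x = chartAt (ι → ℂ) x)
    (hq : IsQuotientCoveringMap p G) : BogS M p G := by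
  intro K H τ Bs _ _ _ _ N b f hH hS ⟨c, c0, hB⟩
  obtain ⟨X', _, _, _, _, _, _, -, p', π, E, h1, h2, h3, h4, h5, hp, -⟩ :=
    MP_bbd4b9_ag.AL.fin K hq H
  choose r' hr' using h1.surjective
  let F : X' → Bs := fun x => f (r' x)
  have hF : ∀ y, F (p' y) = f y := fun y => by
    obtain ⟨g, hg⟩ := h1.apply_eq_iff_mem_orbit.1 (hr' (p' y))
    change f (r' (p' y)) = f y
    rw [← hg]
    exact hS.inv g g.2 y
  have key : ∀ e : Ch ι X', ∀ z ∈ e.target, ∀ e₁ ∈ M.A, z ∈ e₁.target →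
      (∀ᶠ w in 𝓝 z, π (e.symm w) = e₁.symm w) → ContinuousAt (F ∘ e.symm) z ∧
        AnalyticAt ℂ (N.ch (F (e.symm z)) ∘ F ∘ e.symm) z ∧ Function.Surjective (dd N F e z) ∧
        ∀ v, dd N F e z v = 0 ↔ nV (M.repF b e₁ z) v = 0 := by
    intro e z hz e₁ he₁ hz₁ hev
    obtain ⟨s, s1, s2⟩ := sec_ex' h1 hz
    obtain ⟨a1, a2, a3, a4⟩ := hS.loc e₁ he₁ z hz₁ s ⟨s1, by
      filter_upwards [s2, hev] with w w1 w2
      rw [← h5, w1, w2]⟩
    have e1 : F ∘ e.symm =ᶠ[𝓝 z] f ∘ s := s2.mono fun w hw => by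
      simp only [Function.comp_apply, ← hw, hF]
    have e2 : F (e.symm z) = f (s z) := e1.self_of_nhds
    have e3 : N.ch (F (e.symm z)) ∘ F ∘ e.symm =ᶠ[𝓝 z] N.ch (f (s z)) ∘ f ∘ s := by
      rw [e2]
      exact e1.fun_comp _
    have e4 : dd N F e z = fderiv ℂ (N.ch (f (s z)) ∘ f ∘ s) z := e3.fderiv_eq
    exact ⟨a1.congr e1.symm, a2.congr e3.symm, e4 ▸ a3, e4 ▸ a4⟩
  have k1 := fun e (he : e ∈ atlas (ι → ℂ) X') z (hz : z ∈ e.target) =>
    key e z hz (E e) (hA (hp.mem e he)) (hp.tgt he hz).1 (hp.ev he hz)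
  have k2 : ∀ y : X', ∀ v, dd N F (chartAt (ι → ℂ) y) (chartAt (ι → ℂ) y y) v = 0 ↔
      nV (M.repF b (chartAt (ι → ℂ) (π y)) (chartAt (ι → ℂ) (π y) (π y))) v = 0 := fun y => by
    rw [← hp.ch]
    refine (key _ _ (mem_chart_target _ y) _ (hA (chart_mem_atlas _ _))
      (hp.ch y y ▸ mem_chart_target _ (π y)) ?_).2.2.2
    filter_upwards [(chartAt (ι → ℂ) y).open_target.mem_nhds (mem_chart_target _ y),
      ((chartAt (ι → ℂ) y).tendsto_symm (mem_chart_source _ y)).eventually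
        (h2.continuous.continuousAt.eventually_mem (chart_source_mem_nhds (ι → ℂ) (π y)))]
      with z z1 z2
    rw [← (chartAt (ι → ℂ) (π y)).left_inv z2, ← hp.ch, (chartAt (ι → ℂ) y).right_inv z1]
  choose r hr using id h3
  refine descBog hp h2 h3 h4 (p := Fintype.card τ) Fintype.card_pos c0 isOpen_univ
    ⟨p (Classical.arbitrary Y), trivial⟩
    (fun x => fm N F (chartAt (ι → ℂ) (r x)) (chartAt (ι → ℂ) (r x) (r x)))
    (hB.mono fun a ⟨n, σ, hn, hσ, hi⟩ => ⟨n, fun j => pt N F a (σ j),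
      fun j => ⟨⟨fun e he v z hz => ?_, fun e he e' he' x hx hx' v => ?_⟩, fun y _ => ?_⟩,
      fun d hd => ?_, hn⟩).frequently
  · refine (pt_hol (hσ j) ?_ (k1 e he z hz).2.1 v).differentiableWithinAt
    filter_upwards [e.open_target.mem_nhds hz] with w hw using (k1 e he w hw).1
  · have ht : DifferentiableAt ℂ (e' ∘ e.symm) (e x) := by
      have := (hp.an he (hp.mem e' he') (e.map_source hx)
        (by rw [e.left_inv hx]; exact hp.src e' he' x hx')).differentiableAt (by simp)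
      exact this.congr_of_eventuallyEq (Eventually.of_forall fun w => hp.app e' he' _)
    simp only [pt_apply, dd_tr hx hx' (k1 e' he' _ (e'.map_source hx')).2.1.differentiableAt ht,
      e.left_inv hx, e'.left_inv hx']
  · obtain ⟨A, hA'⟩ := factor
      (D := (dd N F (chartAt (ι → ℂ) y) (chartAt (ι → ℂ) y y)).toLinearMap)
      (D' := (dd N F (chartAt (ι → ℂ) (r (π y))) (chartAt (ι → ℂ) (r (π y)) (r (π y)))).toLinearMap)
      (k1 _ (chart_mem_atlas _ _) _ (mem_chart_target _ _)).2.2.1 fun v hv => (k2 y v).2 (by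
        have := (k2 (r (π y)) v).1 hv
        rwa [hr] at this)
    refine ⟨σ j (F ((chartAt (ι → ℂ) y).symm (chartAt (ι → ℂ) y y))) * LinearMap.det A ^ a,
      fun v => ?_⟩
    simp only [ContinuousLinearMap.coe_coe] at hA'
    simp only [pt_apply, fm_apply, hA', bs_lin, Finset.prod_mul_distrib, Finset.prod_const,
      Finset.card_univ, Fintype.card_fin, mul_assoc]
  · refine funext (Fintype.linearIndependent_iff.1 hi d (funext fun u => ?_))
    obtain ⟨y, rfl⟩ := hS.sur u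
    have hx := mem_chart_source (ι → ℂ) (p' y)
    choose w hw using fun k => (k1 _ (chart_mem_atlas _ (p' y)) _ (mem_chart_target _ _)).2.2.1
      (bs τ k)
    have := congrArg (fun T => T fun q => w q.2)
      (hd _ (chart_mem_atlas _ (p' y)) _ (mem_chart_target _ _))
    have e1 : (bs τ).det (fun k => bs τ k) = 1 := (bs τ).det_self
    simpa only [_root_.sum_apply, _root_.smul_apply, pt_apply, hw, e1, Finset.prod_const_one,
      mul_one, (chartAt (ι → ℂ) (p' y)).left_inv hx, hF, _root_.zero_apply, Finset.sum_apply,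
      Pi.smul_apply, Pi.zero_apply] using this

end

end Pool.Agent.Lib.MP_813db1_ag.VH.HB
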