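import Pool.Agent.Lib.MP_813db1_ag.VH.HB.St
import Pool.Agent.Lib.MP_813db1_ag.VH.S8.Pb
import Pool.Agent.Lib.MP_813db1_ag.VH.Res
import Pool.Agent.Lib.MP_813db1_ag.VH.Frm

/-! The datum and the metric on the space of leaves. -/

namespace Pool.Agent.Lib.MP_813db1_ag.VH.HB

open Pool.Agent.Lib.MP_813db1_ag.HS Pool.Agent.Lib.MP_813db1_ag.AS Pool.Agent.Lib.MP_813db1_ag.VH.S8
open MeasureTheory Complex Matrix Filter Topology Set Metric
open scoped ContDiff ComplexOrder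

namespace DtA

section alg

variable {ι r : Type} [Fintype ι] [DecidableEq ι] [Fintype r] [DecidableEq r]

theorem rL_one {A : Mat r} (h : Rl A) (h1 : rL A = 1) : A = 1 := by
  ext i j
  have e : cv (Pi.single j (1 : ℝ)) = Pi.single j (1 : ℂ) := by
    funext a
    by_cases ha : a = j
    · subst ha
      simp [cv]
    · simp [cv, ha]
  have k := h.cv_rv (Pi.single j (1 : ℝ))
  rw [← rL_apply, h1, ContinuousLinearMap.one_apply, e] at k
  have := congrFun k i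
  rw [mulVec_single_one, col_apply] at this
  rw [← this, one_apply, Pi.single_apply]

theorem pull_pull_inv {J : Mat ι} (hJ : J.det ≠ 0) (A : Mat ι) : pull J (pull J⁻¹ A) = A := by
  rw [← RepA.pull_mul, nonsing_inv_mul _ hJ.isUnit, RepA.pull_one]

theorem pull_inv_pull {J : Mat ι} (hJ : J.det ≠ 0) (A : Mat ι) : pull J⁻¹ (pull J A) = A := by
  rw [← RepA.pull_mul, mul_nonsing_inv _ hJ.isUnit, RepA.pull_one]

theorem ric_congr {A B : V ι → Mat ι} {z : V ι} (h : A =ᶠ[𝓝 z] B) : ric A z = ric B z := by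
  rw [ric, ric, levi_congr]
  filter_upwards [h] with w hw
  rw [hw]

theorem clOn_congr {A B : V ι → Mat ι} {U : Set (V ι)} {z : V ι} (h : A =ᶠ[𝓝 z] B) (hz : z ∈ U)
    (hB : ClOn B U) : ClOn A {z} := by
  have ev : ∀ i j, (fun w => A w i j) =ᶠ[𝓝 z] fun w => B w i j :=
    fun i j => h.mono fun _ e => congrFun₂ e i j
  refine ⟨?_, ?_, ?_⟩
  · rintro _ rfl i j
    exact (hB.1 _ hz i j).congr_of_eventuallyEq (ev i j)
  · rintro _ rfl
    rw [h.eq_of_nhds]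
    exact hB.2.1 _ hz
  · rintro _ rfl i j k
    rw [dz_congr (ev i j), dz_congr (ev k j)]
    exact hB.2.2 _ hz i j k

/-- constant conjugation. -/
theorem conj {P P' : Mat r} {H F : V ι → Mat r} {z : V ι} (h : P' * P = 1) (hP : P.map star = P)
    (h0 : (H z).PosDef) (hs : SmR H z) (e : F =ᶠ[𝓝 z] fun w => Pᵀ * H w * P) :
    (∀ i j, ph F i j z = P' * ph H i j z * P) ∧
      (∀ i k, ca F i z * ca F k z = P' * (ca H i z * ca H k z) * P) ∧ tauL F z = tauL H z := by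
  have h' : P * P' = 1 := mul_eq_one_comm.1 h
  have hH : ∀ w, H w * (P * P') = (P * P')ᵀ * H w := fun w => by
    rw [h', transpose_one, Matrix.mul_one, Matrix.one_mul]
  have m : ∀ A B : Mat r, P' * A * P * (P' * B * P) = P' * (A * B) * P := fun A B => by
    calc _ = P' * (A * (P * P') * B) * P := by simp only [Matrix.mul_assoc]
      _ = _ := by rw [h', Matrix.mul_one]
  have a : ∀ k, ca F k z = P' * ca H k z * P := fun k =>
    (ca_congr e k).trans (Res.ca_eq h hP h0 hH hs k)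
  have b : ∀ k, cb F k z = P' * cb H k z * P := fun k =>
    (cb_congr e k).trans (Res.cb_eq h hP h0 hH hs k)
  refine ⟨fun i j => (ph_congr e i j).trans (Res.ph_eq h hP h0 hH hs i j),
    fun i k => by rw [a, a, m], ?_⟩
  ext i j
  rw [tauL, tauL, of_apply, of_apply, a, b, m, trace_mul_comm, ← Matrix.mul_assoc, h',
    Matrix.one_mul]

end alg

variable {ι X Y G r : Type} [Fintype ι] [DecidableEq ι] [TopologicalSpace X] [TopologicalSpace Y]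
  [Group G] [MulAction G Y] [Fintype r] [DecidableEq r] {M : Atl ι X} {p : Y → X}
  {E : Dt M p G r} {Q : Mat r} {c : G → V r} {x : Y → V r} {h : X → Mat ι} {s : Finset ι}
  {L : Matrix r (Sg' s) ℂ} {B : Fb E Q c x h s L} {ok : B.Ok} {H : Subgroup G} {Z Bs Γ : Type}
  [TopologicalSpace Z] [TopologicalSpace Bs] [Group Γ] [MulAction Γ Z] {q : Z → Bs}
  {θ : G → B.κ → V (Ta s) → Z} {π : H →* Γ} {N : Atl (Ta s) Bs}
  (hf : Lf (B.pg ok) H q θ π)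
include hf

/-- the representation. -/
theorem exRho : ∃ ρ : Γ →* Mat r, ∀ δ : H, ρ (π δ) = E.ρ δ := by
  have key : ∀ a b : H, π a = π b → E.ρ a = E.ρ b := fun a b hab => by
    have h1 : π (a⁻¹ * b) = 1 := by rw [map_mul, map_inv, hab, inv_mul_cancel]
    have h2 : E.ρ ((a⁻¹ * b : H) : G) = 1 := rL_one (E.reR _) (hf.ker _ h1)
    have h3 : (b : G) = a * ((a⁻¹ * b : H) : G) := by simp
    rw [h3, map_mul, h2, mul_one]
  choose σ hσ using hf.sur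
  refine ⟨⟨⟨fun g => E.ρ (σ g), ?_⟩, fun a b => ?_⟩, fun δ => key _ _ (hσ _)⟩
  · rw [key (σ 1) 1 (by rw [hσ, map_one]), OneMemClass.coe_one, map_one]
  · exact (key (σ (a * b)) (σ a * σ b) (by rw [map_mul, hσ, hσ, hσ])).trans (map_mul E.ρ _ _)

/-- the metric on the bundle. -/
theorem exH (hO : B.OvS ok) : ∃ K : Z → Mat r, ∀ γ k, ∀ y ∈ B.Bl k,
    K (θ γ k y) = (E.ρ γ⁻¹)ᵀ * B.H k y * E.ρ γ⁻¹ := by
  choose γ k y hy e using hf.cov
  refine ⟨fun z => (E.ρ (γ z)⁻¹)ᵀ * B.H (k z) (y z) * E.ρ (γ z)⁻¹, fun δ l y' hy' => ?_⟩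
  have h1 := (hf.rel _ _ _ _ _ (hy _) _ hy').1 (e (θ δ l y'))
  have h2 := (hO.hol _ _ _ _ _ h1).2.1
  have h3 : E.ρ (γ (θ δ l y'))⁻¹ = E.ρ (δ⁻¹ * γ (θ δ l y'))⁻¹ * E.ρ δ⁻¹ := by
    rw [← map_mul]
    exact congrArg _ (by group)
  beta_reduce
  rw [h2, h3, transpose_mul]
  simp only [Matrix.mul_assoc]

theorem cont (γ : G) (k : B.κ) {y : V (Ta s)} (hy : y ∈ B.Bl k) : ContinuousAt (θ γ k) y := by
  obtain ⟨e, h1, h2⟩ := hf.chart γ k
  exact (e.continuousAt_symm (h1 ▸ hy)).congr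
    (((B.pg ok).B_open k).eventually_mem hy |>.mono fun w hw => h2 w hw)

/-- the change of sheets. -/
theorem ovl {γ δ : G} {k l : B.κ} {y y' : V (Ta s)} (hy : y ∈ B.Bl k) (hy' : y' ∈ B.Bl l)
    (e : q (θ γ k y) = q (θ δ l y')) : ∃ g, B.Rel k l g y y' ∧
      q ∘ θ γ k =ᶠ[𝓝 y] (q ∘ θ δ l) ∘ (B.pg ok).rm k l g := by
  obtain ⟨g, hg⟩ := hf.hq.apply_eq_iff_mem_orbit.1 e
  obtain ⟨η, rfl⟩ := hf.sur g
  have h1 : θ γ k y = θ (η * δ) l y' := hg.symm.trans (hf.eqv η δ l y' hy')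
  have h2 := (hf.rel _ _ _ _ _ hy _ hy').1 h1
  refine ⟨_, h2, (PG.loc' h2).2.mono fun w hw => ?_⟩
  have m := (B.pg ok).mem hw
  have h3 := (hf.rel _ _ _ _ _ m.1 _ m.2).2 hw
  rw [Function.comp_apply, h3, ← hf.eqv η δ l _ m.2, hf.hq.map_smul]
  rfl

variable (hN : ∀ γ k, ∀ y ∈ B.Bl k, Lh N (q ∘ θ γ k) y)
include hN

/-- the metric on the base. -/
theorem exB (hO : B.OvS ok) : ∃ β : Bs → Mat (Ta s), ∀ γ k, ∀ y ∈ B.Bl k,
    pbF N β (q ∘ θ γ k) y = B.β k y := by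
  have ex : ∀ b : Bs, ∃ A : Mat (Ta s), ∃ δ l, ∃ y' ∈ B.Bl l, q (θ δ l y') = b ∧
      pull (jac (N.ch b ∘ (q ∘ θ δ l)) y') A = B.β l y' := fun b => by
    obtain ⟨z, rfl⟩ := hf.hq.surjective b
    obtain ⟨δ, l, y', hy', rfl⟩ := hf.cov z
    exact ⟨_, δ, l, y', hy', rfl, pull_pull_inv ((pbS N).ev _ _ (hN δ l y' hy')).2.2.2.2 _⟩
  choose β hβ using ex
  refine ⟨β, fun γ k y hy => ?_⟩
  obtain ⟨δ, l, y', hy', e1, e2⟩ := hβ (q (θ γ k y))
  obtain ⟨g, h1, h2⟩ := ovl hf hy hy' e1.symm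
  have h3 := hO.hol _ _ _ _ _ h1
  have h4 : (B.pg ok).rm k l g y = y' := PG.rm_eq (P := B.pg ok) h1
  rw [((pbS N).comp _ _ _ y (by rw [h4]; exact hN δ l y' hy') h3.1 h2).2.1, h4, h3.2.2.2.1, ← e2,
    pbF, Function.comp_apply, e1]

/-- the sheets. -/
theorem sheet (γ : G) (k : B.κ) {y : V (Ta s)} (hy : y ∈ B.Bl k) : ∃ e ∈ N.A, y ∈ e.target ∧
    F12.Sec q e y (θ γ k) ∧ ∀ F, N.repF F e =ᶠ[𝓝 y] pbF N F (q ∘ θ γ k) := by
  obtain ⟨e, he, h1, h2⟩ := hN γ k y hy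
  exact ⟨e, he, h1, ⟨cont hf γ k hy, h2.symm⟩, ((pbS N).rep e he y h1 _ h2).2⟩

theorem locOf {P : Ch (Ta s) Bs → V (Ta s) → (V (Ta s) → Z) → Prop}
    (h1 : ∀ e γ k, ∀ y ∈ B.Bl k, P e y (θ γ k))
    (h2 : ∀ e z t e' z' t', Two N q e z t e' z' t' → P e' z' t' → P e z t) : Loc N q P :=
  loc_of (fun z => by
    obtain ⟨γ, k, y, hy, rfl⟩ := hf.cov z
    obtain ⟨e, he, a, b, -⟩ := sheet hf hN γ k hy
    exact ⟨e, he, y, a, _, b, rfl, h1 e γ k y hy⟩) h2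

/-- the datum. -/
theorem exD (hO : B.OvS ok) : ∃ D : Dt N q Γ r, ∀ γ k, ∀ y ∈ B.Bl k,
    D.H ∘ θ γ k =ᶠ[𝓝 y] fun w => (E.ρ γ⁻¹)ᵀ * B.H k w * E.ρ γ⁻¹ := by
  obtain ⟨ρ, hρ⟩ := exRho hf
  obtain ⟨K, hK⟩ := exH hf hO
  have ev : ∀ γ k, ∀ y ∈ B.Bl k,
      K ∘ θ γ k =ᶠ[𝓝 y] fun w => (E.ρ γ⁻¹)ᵀ * B.H k w * E.ρ γ⁻¹ := fun γ k y hy =>
    (((B.pg ok).B_open k).eventually_mem hy).mono fun w hw => hK γ k w hw
  refine ⟨⟨ρ, K, fun g => ?_, fun z => ?_, fun z => ?_, fun g z => ?_, ?_⟩, ev⟩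
  · obtain ⟨δ, rfl⟩ := hf.sur g
    rw [hρ]
    exact E.reR _
  · obtain ⟨γ, k, y, hy, rfl⟩ := hf.cov z
    rw [hK γ k y hy, RepA.map_star_mul, RepA.map_star_mul, transpose_map, E.reR,
      show (B.H k y).map star = B.H k y from ((B.mo k).sg y hy).re]
  · obtain ⟨γ, k, y, hy, rfl⟩ := hf.cov z
    rw [hK γ k y hy]
    exact Res.pos (E.mul_inv γ) (E.reR _) ((B.mo k).sg y hy).pos
  · obtain ⟨δ, rfl⟩ := hf.sur g
    obtain ⟨γ, k, y, hy, rfl⟩ := hf.cov z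
    rw [hf.eqv δ γ k y hy, hK _ k y hy, hK _ k y hy, ← map_inv, hρ, _root_.mul_inv_rev, map_mul,
      transpose_mul, InvMemClass.coe_inv]
    simp only [Matrix.mul_assoc]
  · exact locOf hf hN
      (fun _ γ k y hy => (((SmR.const _).mul ((B.mo k).sm y hy)).mul (SmR.const _)).congr
        (ev γ k y hy))
      fun _ _ _ _ _ _ t k i j => t.smooth (lh hf.hq) (f := fun y => K y i j) (k i j)

end DtA

open DtA

variable {ι X Y G r : Type} [Fintype ι] [DecidableEq ι] [TopologicalSpace X] [TopologicalSpace Y]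
  [Group G] [MulAction G Y] [Fintype r] [DecidableEq r] {M : Atl ι X} {p : Y → X}
  {E : Dt M p G r} {Q : Mat r} {c : G → V r} {x : Y → V r} {h : X → Mat ι} {s : Finset ι}
  {L : Matrix r (Sg' s) ℂ} {B : Fb E Q c x h s L}

theorem dtS (hL : LocS) (ok : B.Ok) (hO : B.OvS ok) : DtS B ok := by
  intro H Z Bs Γ _ _ _ _ q θ π N hf hN
  obtain ⟨D, hD⟩ := exD hf hN hO
  obtain ⟨β, hβ⟩ := exB hf hN hO
  obtain ⟨τ, hτ, -⟩ := (frmS hf.hq r D).1
  have hA := AY.repA' _ _ N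
  have cj := fun γ k y hy => conj (E.mul_inv γ) (E.reR _) ((B.mo k).sg y hy).pos
    ((B.mo k).sm y hy) (hD γ k y hy)
  have lo := fun k y hy => hL ι r s Q L _ _ _ (B.mo k) y hy
  have pn : Loc N q fun _ z t => (∀ i j, ph (D.H ∘ t) i j z = 0) ∧
      ∀ i k, ca (D.H ∘ t) i z * ca (D.H ∘ t) k z = 0 := by
    refine locOf hf hN (fun _ γ k y hy => ⟨fun i j => ?_, fun i j => ?_⟩)
      fun _ _ _ _ _ _ t k => ⟨fun i j => ?_, fun i j => ?_⟩
    · rw [(cj γ k y hy).1, (lo k y hy).1, Matrix.mul_zero, Matrix.zero_mul]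
    · rw [(cj γ k y hy).2.1, (lo k y hy).2.1, Matrix.mul_zero, Matrix.zero_mul]
    · simp only [t.ph (lh hf.hq), k.1, smul_zero, Finset.sum_const_zero]
    · simp only [t.ca (lh hf.hq), Matrix.sum_mul, Matrix.mul_sum, Matrix.smul_mul, Matrix.mul_smul,
        k.2, smul_zero, Finset.sum_const_zero]
  have ch : ∀ b : Bs, ∃ γ k, ∃ y ∈ B.Bl k, ∃ e ∈ N.A, b ∈ e.source ∧ e b = y ∧ y ∈ e.target ∧
      F12.Sec q e y (θ γ k) ∧ N.repF β e =ᶠ[𝓝 y] B.β k := fun b => by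
    obtain ⟨z, rfl⟩ := hf.hq.surjective b
    obtain ⟨γ, k, y, hy, rfl⟩ := hf.cov z
    obtain ⟨e, he, a, b, d⟩ := sheet hf hN γ k hy
    refine ⟨γ, k, y, hy, e, he, ?_, ?_, a, b, (d β).trans
      ((((B.pg ok).B_open k).eventually_mem hy).mono fun w hw => hβ γ k w hw)⟩
    · rw [sec_pt b]
      exact e.map_target a
    · rw [sec_pt b, e.right_inv a]
  have inj : ∀ (F : Bs → Mat (Ta s)) b, ∀ e ∈ N.A, b ∈ e.source →
      (tj e (N.ch b) b).det ≠ 0 ∧ F b = pull (tj e (N.ch b) b)⁻¹ (N.repF F e (e b)) :=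
    fun F b e he hb => by
      have d := hA.tj_det e he _ (N.ch_mem b) b hb (N.mem b)
      rw [Atl.repF, e.left_inv hb, pull_inv_pull d]
      exact ⟨d, rfl⟩
  have hK : N.IsK β := by
    refine (hA.isK_iff β).2 ⟨hA.clF_loc β fun b => ?_, fun b => ?_⟩
    · obtain ⟨γ, k, y, hy, e, he, h1, rfl, -, -, h5⟩ := ch b
      exact ⟨e, he, h1, clOn_congr h5 hy (B.mo k).kon.1⟩
    · obtain ⟨γ, k, y, hy, e, he, h1, rfl, -, -, h5⟩ := ch b
      have d := inj β b e he h1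
      rw [d.2, h5.eq_of_nhds]
      refine (mat.pull_pd _ _ _ ?_).1 ((B.mo k).kon.2 _ hy)
      rw [det_nonsing_inv, Ring.inverse_eq_inv]
      exact inv_ne_zero d.1
  refine ⟨D, τ, β, pn.mono fun _ _ _ k => ⟨k.1, fun i j => by rw [k.2, k.2]⟩, hτ,
    pn.mono fun _ _ _ k => k.2, hK, fun b => ?_⟩
  obtain ⟨γ, k, y, hy, e, he, h1, rfl, h3, h4, h5⟩ := ch b
  rw [(inj (N.ricF β) b e he h1).2, (inj β b e he h1).2, (inj τ b e he h1).2,
    (AY.repB' _ _ N).ric_rep β hK e he _ h3, ric_congr h5, (lo k _ hy).2.2, hτ e he _ h3 _ h4,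
    (cj γ k _ hy).2.2, h5.eq_of_nhds, RepA.pull_add, RepB.pull_neg]

end Pool.Agent.Lib.MP_813db1_ag.VH.HB
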