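import Pool.Agent.Lib.MP_813db1_ag.VH.HB.St

/-! The space of leaves and its quotient by a subgroup of finite index. -/

namespace Pool.Agent.Lib.MP_813db1_ag.VH.HB

open Pool.Agent.Lib.MP_813db1_ag.VH.S8
open Filter Topology Set Metric

variable {G F W : Type} [Group G] [NormedAddCommGroup F] [NormedSpace ℝ F]
  [NormedAddCommGroup W] [NormedSpace ℂ W] [NormedSpace ℝ W] (P : PG G F W)

namespace LfA

/-- a space of leaves with its topology and the action of the group. -/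
structure Pre {Z : Type} [TopologicalSpace Z] [MulAction G Z] (θ : G → P.κ → W → Z) : Prop where
  rel : ∀ γ k δ l, ∀ y ∈ P.B k, ∀ y' ∈ P.B l, θ γ k y = θ δ l y' ↔ P.Rel k l (δ⁻¹ * γ) y y'
  cov : ∀ z, ∃ γ k, ∃ y ∈ P.B k, θ γ k y = z
  sm : ∀ δ γ k, ∀ y ∈ P.B k, δ • θ γ k y = θ (δ * γ) k y
  top : ∀ U, IsOpen U ↔ ∀ γ k, IsOpen (P.B k ∩ θ γ k ⁻¹' U)

/-- the relation on the triples. -/
def sd : Setoid {t : G × P.κ × W // t.2.2 ∈ P.B t.2.1} where
  r a b := P.Rel a.1.2.1 b.1.2.1 (b.1.1⁻¹ * a.1.1) a.1.2.2 b.1.2.2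
  iseqv := ⟨fun a => by rw [inv_mul_cancel]; exact P.refl a.2,
    fun h => by simpa using P.symm h,
    fun h h' => by simpa [mul_assoc] using P.trans h h'⟩

theorem pre : ∃ (Z : Type) (_ : TopologicalSpace Z) (_ : MulAction G Z) (θ : G → P.κ → W → Z),
    Pre P θ := by
  classical
  let θ : G → P.κ → W → Quotient (sd P) := fun γ k y =>
    if h : y ∈ P.B k then Quotient.mk _ ⟨(γ, k, y), h⟩
    else Quotient.mk _ ⟨(γ, k, P.yc k), PG.yc_mem k⟩
  have hθ : ∀ γ k y (h : y ∈ P.B k), θ γ k y = Quotient.mk _ ⟨(γ, k, y), h⟩ :=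
    fun γ k y h => dif_pos h
  let act : MulAction G (Quotient (sd P)) :=
    { smul := fun g => Quotient.map (fun t => ⟨(g * t.1.1, t.1.2), t.2⟩) fun a b h => by
        change P.Rel _ _ ((g * b.1.1)⁻¹ * (g * a.1.1)) _ _
        rw [mul_inv_rev, mul_assoc, inv_mul_cancel_left]
        exact h
      one_smul := fun z => Quotient.inductionOn z fun t => by
        change Quotient.mk (sd P) ⟨(1 * t.1.1, t.1.2), t.2⟩ = _
        simp only [one_mul]
      mul_smul := fun a b z => Quotient.inductionOn z fun t => by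
        change Quotient.mk (sd P) ⟨(a * b * t.1.1, t.1.2), t.2⟩ =
          Quotient.mk (sd P) ⟨(a * (b * t.1.1), t.1.2), t.2⟩
        simp only [mul_assoc] }
  let tp : TopologicalSpace (Quotient (sd P)) :=
    { IsOpen := fun U => ∀ γ k, IsOpen (P.B k ∩ θ γ k ⁻¹' U)
      isOpen_univ := fun γ k => by simpa using PG.B_open k
      isOpen_inter := fun U V hU hV γ k => by
        rw [preimage_inter, inter_inter_distrib_left]
        exact (hU γ k).inter (hV γ k)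
      isOpen_sUnion := fun S hS γ k => by
        rw [preimage_sUnion, inter_iUnion₂]
        exact isOpen_biUnion fun U hU => hS U hU γ k }
  refine ⟨Quotient (sd P), tp, act, θ, @Pre.mk _ _ _ _ _ _ _ _ _ P _ tp act θ ?_ ?_ ?_ ?_⟩
  · intro γ k δ l y hy y' hy'
    rw [hθ γ k y hy, hθ δ l y' hy']
    exact Quotient.eq
  · intro z
    obtain ⟨⟨⟨γ, k, y⟩, hy⟩, rfl⟩ := Quotient.exists_rep z
    exact ⟨γ, k, y, hy, hθ γ k y hy⟩
  · intro δ γ k y hy
    rw [hθ γ k y hy, hθ _ k y hy]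
    rfl
  · exact fun U => Iff.rfl

variable {P}

theorem key {N : ℕ} (hL : P.Lat N) {k l : P.κ} {y y' : W} (hy : y ∈ P.B k) (hy' : y' ∈ P.B l) :
    ∃ O O', IsOpen O ∧ IsOpen O' ∧ y ∈ O ∧ y' ∈ O' ∧ O ⊆ P.B k ∧ O' ⊆ P.B l ∧
      ∀ g, ∀ u ∈ O, ∀ u' ∈ O', P.Rel k l g u u' → P.Rel k l g y y' := by
  obtain ⟨T, hT⟩ := hL.cpt
  obtain ⟨R, a1, a2⟩ := exists_between (show dist y (P.yc k) < P.yr k from hy)
  obtain ⟨R', b1, b2⟩ := exists_between (show dist y' (P.yc l) < P.yr l from hy')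
  have h1 := (eventually_all_finite (l := 𝓝 (y, y')) (P.disc k l R R' T a2 b2)
    (p := fun g q => P.Rel k l g q.1 q.2 → P.Rel k l g y y')).2 fun g _ => by
      by_cases h : P.Rel k l g y y'
      · exact Eventually.of_forall fun _ _ => h
      · exact (not_frequently.1 fun hc => h (P.clos hy hy' hc)).mono fun _ hq h' => (hq h').elim
  obtain ⟨O, O', o1, o2, o3, o4, o5⟩ := mem_nhds_prod_iff'.1 h1
  refine ⟨O ∩ ball (P.yc k) R, O' ∩ ball (P.yc l) R', o1.inter isOpen_ball, o3.inter isOpen_ball,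
    ⟨o2, a1⟩, ⟨o4, b1⟩, fun u hu => ball_subset_ball a2.le hu.2,
    fun u hu => ball_subset_ball b2.le hu.2, fun g u hu u' hu' h => ?_⟩
  obtain ⟨t, t1, t2, t3⟩ := hT (P.c g)
  have h4 := P.trans h (t1 l _ (P.mem h).2)
  have h5 := o5 (mk_mem_prod hu.1 hu'.1) (t * g) ⟨by rw [P.coc, t2, add_comm]; exact t3, u,
    ball_subset_closedBall hu.2, u', ball_subset_closedBall hu'.2, h4⟩ h4
  simpa using P.trans h5 (t1.inv l _ hy')

variable {Z : Type} [TopologicalSpace Z] [MulAction G Z] {θ : G → P.κ → W → Z} (h : Pre P θ)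
include h

theorem Pre.cont (γ : G) (k : P.κ) : ContinuousOn (θ γ k) (P.B k) :=
  (continuousOn_open_iff (PG.B_open k)).2 fun U hU => (h.top U).1 hU γ k

theorem Pre.opn (γ : G) {k : P.κ} {O : Set W} (hO : IsOpen O) (hs : O ⊆ P.B k) :
    IsOpen (θ γ k '' O) := by
  refine (h.top _).2 fun δ l => isOpen_iff_mem_nhds.2 ?_
  rintro y' ⟨hy', y, hy, e⟩
  have hr := (h.rel δ l γ k y' hy' y (hs hy)).1 e.symm
  filter_upwards [(PG.loc' hr).2, (PG.tendsto hr).eventually (hO.mem_nhds hy)] with w h1 h2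
  exact ⟨(P.mem h1).1, _, h2, ((h.rel δ l γ k w (P.mem h1).1 _ (hs h2)).2 h1).symm⟩

theorem Pre.inj (γ : G) (k : P.κ) : InjOn (θ γ k) (P.B k) := fun y hy y' hy' e => by
  have := (h.rel γ k γ k y hy y' hy').1 e
  rw [inv_mul_cancel] at this
  exact P.uniq (P.refl hy) this

theorem Pre.chart (γ : G) (k : P.κ) : ∃ e : OpenPartialHomeomorph Z W, e.target = P.B k ∧
    ∀ y ∈ P.B k, e.symm y = θ γ k y := by
  have : Nonempty W := ⟨0⟩
  refine ⟨(OpenPartialHomeomorph.ofContinuousOpenRestrict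
    ((h.inj γ k).toPartialEquiv (θ γ k) (P.B k)) (h.cont γ k) (fun U hU => ?_)
    (PG.B_open k)).symm, rfl, fun _ _ => rfl⟩
  have := h.opn γ ((PG.B_open k).isOpenMap_subtype_val U hU) (Subtype.coe_image_subset _ _)
  rwa [image_image] at this

theorem Pre.csm (g : G) : Continuous fun z : Z => g • z := by
  refine continuous_def.2 fun U hU => (h.top _).2 fun γ k => ?_
  have e : P.B k ∩ θ γ k ⁻¹' ((fun z : Z => g • z) ⁻¹' U) = P.B k ∩ θ (g * γ) k ⁻¹' U := by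
    ext y
    refine and_congr_right fun hy => ?_
    simp only [mem_preimage, h.sm g γ k y hy]
  rw [e]
  exact (h.top U).1 hU _ k

theorem Pre.conn : ConnectedSpace Z := by
  obtain ⟨k₀⟩ := P.ne
  have pc : ∀ γ k, IsPreconnected (θ γ k '' P.B k) := fun γ k =>
    (convex_ball _ _).isPreconnected.image _ (h.cont γ k)
  refine connectedSpace_iff_connectedComponent.2 ⟨θ 1 k₀ (P.yc k₀), eq_univ_of_forall fun z => ?_⟩
  obtain ⟨γ, k, y, hy, rfl⟩ := h.cov z
  refine P.conn (fun k γ => θ γ k '' P.B k ⊆ connectedComponent (θ 1 k₀ (P.yc k₀)))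
    (fun k l γ δ y y' hr hs => ?_) k₀ 1 k γ
    ((pc 1 k₀).subset_connectedComponent (mem_image_of_mem _ (PG.yc_mem k₀)))
    (mem_image_of_mem _ hy)
  have e := (h.rel (γ * δ) k γ l y (P.mem hr).1 y' (P.mem hr).2).2 (by simpa using hr)
  rw [connectedComponent_eq (hs (mem_image_of_mem _ (P.mem hr).1)), e]
  exact (pc γ l).subset_connectedComponent (mem_image_of_mem _ (P.mem hr).2)

theorem Pre.triv {N : ℕ} (hL : P.Lat N) {η : G} (hη : P.Fx η) (z : Z) : η • z = z := by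
  obtain ⟨γ, k, y, hy, rfl⟩ := h.cov z
  rw [h.sm η γ k y hy, h.rel _ k _ k y hy y hy]
  simpa [mul_assoc] using hL.nrm η γ⁻¹ hη k y hy

end LfA

theorem lfS [FiniteDimensional ℂ W] : LfS P := by
  intro N hL H ⟨hN, hI, hF⟩
  obtain ⟨Z, _, _, θ, h⟩ := LfA.pre P
  have : ProperSpace W := FiniteDimensional.proper ℂ W
  have := h.conn
  let Γ := (MulAction.toPermHom H Z).range
  let π : H →* Γ := (MulAction.toPermHom H Z).rangeRestrict
  have sur : Function.Surjective π := MonoidHom.rangeRestrict_surjective _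
  have hπ : ∀ (δ : H) (z : Z), π δ • z = (δ : G) • z := fun _ _ => rfl
  have : ContinuousConstSMul Γ Z := ⟨fun g => by
    obtain ⟨δ, rfl⟩ := sur g
    exact h.csm δ⟩
  let q : Z → Quotient (MulAction.orbitRel Γ Z) := Quotient.mk _
  have qo : IsOpenMap q := isOpenMap_quotient_mk'_mul
  have qc : Continuous q := continuous_quotient_mk'
  have qe : ∀ a b, q a = q b ↔ a ∈ MulAction.orbit Γ b := fun a b =>
    Quotient.eq.trans MulAction.orbitRel_apply
  have qh : ∀ (δ : H) a, q ((δ : G) • a) = q a := fun δ a => (qe _ _).2 ⟨π δ, rfl⟩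
  refine ⟨Z, Quotient (MulAction.orbitRel Γ Z), Γ, inferInstance, inferInstance, inferInstance,
    inferInstance, ⟨fun a b hab => ?_⟩, ⟨?_⟩, inferInstance, q, θ, π,
    ⟨⟨isQuotientMap_quotient_mk', this, qe _ _, fun z => ?_⟩, sur, fun δ hδ => ?_,
      fun δ γ k y hy => h.sm δ γ k y hy, h.rel, h.cov, h.chart⟩⟩
  · obtain ⟨z, rfl⟩ := Quotient.exists_rep a
    obtain ⟨z', rfl⟩ := Quotient.exists_rep b
    obtain ⟨γ, k, y, hy, rfl⟩ := h.cov z
    obtain ⟨δ, l, y', hy', rfl⟩ := h.cov z'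
    obtain ⟨O, O', o1, o2, o3, o4, o5, o6, o7⟩ := LfA.key hL hy hy'
    refine ⟨q '' (θ γ k '' O), q '' (θ δ l '' O'), qo _ (h.opn γ o1 o5), qo _ (h.opn δ o2 o6),
      mem_image_of_mem _ (mem_image_of_mem _ o3), mem_image_of_mem _ (mem_image_of_mem _ o4),
      Set.disjoint_left.2 ?_⟩
    rintro _ ⟨_, ⟨u, hu, rfl⟩, rfl⟩ ⟨_, ⟨u', hu', rfl⟩, e⟩
    obtain ⟨g, hg⟩ := (qe _ _).1 e.symm
    obtain ⟨η, rfl⟩ := sur g
    have e1 : θ γ k u = θ (η * δ) l u' := by rw [← h.sm η δ l u' (o6 hu')]; exact hg.symm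
    have e2 := (h.rel _ _ _ _ y hy y' hy').2
      (o7 _ u hu u' hu' ((h.rel _ _ _ _ u (o5 hu) u' (o6 hu')).1 e1))
    refine hab ?_
    change q (θ γ k y) = q (θ δ l y')
    rw [e2, ← h.sm η δ l y' hy', qh]
  · obtain ⟨t, ht, T, hT⟩ := P.cpt
    have := P.fin
    have hs : ∀ l, closedBall (P.yc l) (t * P.yr l) ⊆ P.B l := fun l =>
      closedBall_subset_ball (mul_lt_of_lt_one_left (P.pos l) ht)
    have hc : IsCompact (⋃ (a : G ⧸ H) (l : P.κ),
        q '' (θ a.out⁻¹ l '' closedBall (P.yc l) (t * P.yr l))) :=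
      isCompact_iUnion fun a => isCompact_iUnion fun l =>
        ((isCompact_closedBall _ _).image_of_continuousOn ((h.cont _ l).mono (hs l))).image qc
    refine (eq_univ_of_forall fun b => ?_ : _ = univ) ▸ hc
    obtain ⟨z, rfl⟩ := Quotient.exists_rep b
    obtain ⟨δ, k, y, hy, rfl⟩ := h.cov z
    obtain ⟨l, γ, y', hy', hr, -⟩ := hT k y hy 0
    obtain ⟨η, hη⟩ := QuotientGroup.mk_out_eq_mul H (γ * δ⁻¹)
    refine mem_iUnion₂.2 ⟨(γ * δ⁻¹ : G), l, _, mem_image_of_mem _ hy', ?_⟩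
    have e : θ δ k y = θ (η * (γ * δ⁻¹ * η)⁻¹) l y' :=
      (h.rel _ _ _ _ y hy y' (hs l hy')).2 (by simpa [mul_assoc] using hr)
    change q _ = q (θ δ k y)
    rw [e, ← h.sm η _ l y' (hs l hy'), qh, hη]
  · obtain ⟨γ, k, y, hy, rfl⟩ := h.cov z
    obtain ⟨O, O', o1, o2, o3, o4, o5, o6, o7⟩ := LfA.key hL hy hy
    refine ⟨θ γ k '' (O ∩ O'), (h.opn γ (o1.inter o2) (inter_subset_left.trans o5)).mem_nhds
      (mem_image_of_mem _ ⟨o3, o4⟩), fun g => ?_⟩
    rintro ⟨_, ⟨_, ⟨u, hu, rfl⟩, rfl⟩, u', hu', e⟩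
    obtain ⟨η, rfl⟩ := sur g
    have e1 : θ (η * γ) k u = θ γ k u' := by rw [← h.sm η γ k u (o5 hu.1)]; exact e.symm
    have r := o7 _ u hu.1 u' hu'.2 ((h.rel _ _ _ _ u (o5 hu.1) u' (o6 hu'.2)).1 e1)
    have m : γ⁻¹ * (η * γ) ∈ H := by simpa [mul_assoc] using hN.conj_mem η η.2 γ⁻¹
    have f : P.Fx η := by simpa [mul_assoc] using hL.nrm _ γ (hF _ m k y r).1
    exact Subtype.ext (Equiv.ext fun z => h.triv hL f z)
  · obtain ⟨k⟩ := P.ne
    have hy := PG.yc_mem k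
    have e : θ (δ * 1) k (P.yc k) = θ 1 k (P.yc k) := by
      rw [← h.sm δ 1 k _ hy, ← hπ, hδ, one_smul]
    exact (hF δ δ.2 k (P.yc k) (by simpa using (h.rel _ _ _ _ _ hy _ hy).1 e)).2

end Pool.Agent.Lib.MP_813db1_ag.VH.HB
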