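import Pool.Agent.Lib.MP_813db1_ag.VH.HB.St
import Pool.Agent.Lib.MP_813db1_ag.VH.S8.Alg
import Pool.Agent.Lib.MP_813db1_ag.VH.S8.Jz
import Pool.Agent.Lib.MP_813db1_ag.VH.S8.Gm
import Pool.Agent.Lib.MP_813db1_ag.HS.Sub_Calc

/-! The period map of a model is pluriharmonic, and the curvature of the transversal metric. -/

namespace Pool.Agent.Lib.MP_813db1_ag.VH.HB

open Pool.Agent.Lib.MP_813db1_ag.HS Pool.Agent.Lib.MP_813db1_ag.VH.S8
open Complex Matrix Filter Topology Set Metric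
open scoped ContDiff ComplexOrder

namespace LocA

section calc1

variable {ι α β : Type} [Fintype ι] [DecidableEq ι]

omit [Fintype ι] in
theorem sI (k : ι) : (Pi.single k I : V ι) = I • Pi.single k 1 := by
  rw [← Pi.single_smul', smul_eq_mul, mul_one]

theorem dR_dF (F : V ι → Matrix α β ℂ) (k : ι) (z : V ι) : dR F k z =
    (1 / 2 : ℂ) • (dF F z (Pi.single k 1) - I • dF F z (I • Pi.single k 1)) := by
  ext i j
  simp only [dR_apply, dz, sI, Matrix.smul_apply, Matrix.sub_apply, JzAux.dF_apply, smul_eq_mul]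
  ring

theorem dRb_dF (F : V ι → Matrix α β ℂ) (k : ι) (z : V ι) : dRb F k z =
    (1 / 2 : ℂ) • (dF F z (Pi.single k 1) + I • dF F z (I • Pi.single k 1)) := by
  ext i j
  simp only [dRb_apply, dzb, sI, Matrix.smul_apply, Matrix.add_apply, JzAux.dF_apply, smul_eq_mul]
  ring

theorem dRb_an {F : V ι → Matrix α β ℂ} {z : V ι} (h : AnM F z) (k : ι) : dRb F k z = 0 := by
  rw [dRb_dF, JzAux.dF_an h, smul_smul, I_mul_I, neg_one_smul, add_neg_cancel, smul_zero]

theorem dz_log {σ : Type} [Fintype σ] [DecidableEq σ] {A : V ι → Mat σ} {z : V ι} (hA : DfR A z)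
    (hp : ∀ᶠ w in 𝓝 z, (A w).PosDef) (k : ι) :
    dz (fun w => (Real.log (A w).det.re : ℂ)) k z = trace (dR A k z * (A z)⁻¹) := by
  rw [Sub.dz_eq, Sub.dd_log hA (hp.mono fun _ h => h.posSemidef) hp.self_of_nhds]
  have e : Sub.DM (-I) A k z = dR A k z := by
    ext i j
    rw [dR_apply, Sub.dz_eq]
    rfl
  rw [e]

end calc1

theorem two_I {α β : Type} {A : Matrix α β ℂ} (h : I • A = -I • A) : A = 0 := by
  have e : (2 * I) • A = 0 := by
    rw [two_mul, add_smul]
    nth_rewrite 1 [h]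
    rw [← add_smul, neg_add_cancel, zero_smul]
  exact (smul_eq_zero.1 e).resolve_left (mul_ne_zero two_ne_zero I_ne_zero)

variable {ι r : Type} [Fintype ι] [DecidableEq ι] [Fintype r] [DecidableEq r] {s : Finset ι}
  {Q : Mat r} {L : Matrix r (Sg' s) ℂ} {H : V (Ta s) → Mat r} {R : ℝ} {y : V (Ta s)}

theorem alg (h : Mo0 s Q L H R) (hy : y ∈ ball (0 : V (Ta s)) R) : Alg Q L (H y) :=
  algS _ _ Q L _ h.lag (h.sg y hy)

theorem ja (h : Mo0 s Q L H R) (hy : y ∈ ball (0 : V (Ta s)) R) (k : Ta s) :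
    jM Q (H y) * ca H k y = I • ca H k y ∧ ca H k y * jM Q (H y) = -I • ca H k y ∧
      jM Q (H y) * cb H k y = -I • cb H k y ∧ cb H k y * jM Q (H y) = I • cb H k y := by
  obtain ⟨h1, h2⟩ := jzS ι r algS s Q L H R h y hy
  have h3 : dF (fun w => jM Q (H w)) y (Pi.single k 1) * jM Q (H y) +
      jM Q (H y) * dF (fun w => jM Q (H w)) y (Pi.single k 1) = 0 := by
    rw [← JzAux.dF_mul h1.df h1.df, ← JzAux.dF_const (-1 : Mat r) y (Pi.single k 1)]
    exact JzAux.dF_congr ((isOpen_ball.eventually_mem hy).mono fun w hw => (h.sg w hw).sq) _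
  have h4 := (h.sg y hy).sq
  simp only [ca, cb, dR_dF, dRb_dF, Matrix.mul_smul, Matrix.mul_sub, Matrix.mul_add, (h2 _).2.1,
    (h2 _).1]
  generalize dF (fun w => jM Q (H w)) y (Pi.single k 1) = D at h3 ⊢
  generalize jM Q (H y) = J at h3 h4 ⊢
  have h5 : J * (J * D) = -D := by rw [← Matrix.mul_assoc, h4, Matrix.neg_mul, Matrix.one_mul]
  have h6 : D * J = -(J * D) := eq_neg_of_add_eq_zero_left h3
  simp only [h5, h6, Matrix.mul_neg, Matrix.neg_mul, neg_neg, Matrix.smul_mul, Matrix.sub_mul,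
    Matrix.add_mul, Matrix.mul_assoc]
  refine ⟨?_, ?_, ?_, ?_⟩ <;> match_scalars <;> ring_nf <;> rw [I_sq] <;> norm_num

theorem ph0 (h : Mo0 s Q L H R) (hy : y ∈ ball (0 : V (Ta s)) R) (i j : Ta s) :
    ph H i j y = 0 := by
  have hb := isOpen_ball.eventually_mem hy
  have h1 := (jzS ι r algS s Q L H R h y hy).1
  have hs := h.sm y hy
  have h0 := (h.sg y hy).pos.det_pos.ne'
  have hq : (fun w => H w * jM Q (H w)) =ᶠ[𝓝 y] fun _ => Q := hb.mono fun w hw => (alg h hw).hj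
  obtain ⟨a1, a2, -, -⟩ := ja h hy i
  obtain ⟨-, -, a3, a4⟩ := ja h hy j
  have d1 : dR (fun w => jM Q (H w)) i y = I • ca H i y := by
    have e := congrArg ((H y)⁻¹ * ·) (dR_congr hq i)
    simp only [dR_mul hs.df h1.df, dR_const, Matrix.mul_add, Matrix.mul_zero,
      nonsing_inv_mul_cancel_left _ _ h0.isUnit, ← Matrix.mul_assoc _ (dR H i y)] at e
    rw [eq_neg_of_add_eq_zero_right e, ← ca, a2, neg_smul, neg_neg]
  have d2 : dRb (fun w => jM Q (H w)) j y = -I • cb H j y := by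
    have e := congrArg ((H y)⁻¹ * ·) (dRb_congr hq j)
    simp only [dRb_mul hs.df h1.df, dRb_const, Matrix.mul_add, Matrix.mul_zero,
      nonsing_inv_mul_cancel_left _ _ h0.isUnit, ← Matrix.mul_assoc _ (dRb H j y)] at e
    rw [eq_neg_of_add_eq_zero_right e, ← cb, a4, neg_smul]
  have e1 := dRb_congr (F := fun w => jM Q (H w) * ca H i w) (F' := fun w => I • ca H i w)
    (hb.mono fun w hw => (ja h hw i).1) j
  have e2 := dR_congr (F := fun w => jM Q (H w) * cb H j w) (F' := fun w => -I • cb H j w)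
    (hb.mono fun w hw => (ja h hw j).2.2.1) i
  rw [dRb_mul h1.df (hs.ca h0 i).df, dRb_csmul _ (hs.ca h0 i).df, dRb_ca hs h0, d2,
    Matrix.mul_sub, ← Matrix.mul_assoc _ (cb H j y), a3, Matrix.smul_mul] at e1
  rw [dR_mul h1.df (hs.cb h0 j).df, dR_csmul _ (hs.cb h0 j).df, dR_cb hs h0, d1,
    Matrix.mul_sub, ← Matrix.mul_assoc _ (ca H i y), a1, Matrix.smul_mul] at e2
  refine (smul_eq_zero.1 (?_ : I • ph H i j y = 0)).resolve_left I_ne_zero
  rw [ph]
  linear_combination (norm := module) e2 - e1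

theorem lev (h : Mo0 s Q L H R) (hy : y ∈ ball (0 : V (Ta s)) R) :
    levi (fun w => (Real.log ((1 / 2 : ℂ) • muM L (H w)).det.re : ℂ)) y = tauL H y := by
  have pm : ∀ w ∈ ball (0 : V (Ta s)) R, ((1 / 2 : ℂ) • muM L (H w)).PosDef := fun w hw =>
    (alg h hw).mu.smul (by norm_num [Complex.pos_iff])
  have sm : ∀ w ∈ ball (0 : V (Ta s)) R, SmR (fun w => (1 / 2 : ℂ) • muM L (H w)) w := fun w hw =>
    (((SmR.const _).mul (h.sm _ hw)).mul (SmR.const _)).csmul _
  have hs := h.sm y hy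
  have h0 := (h.sg y hy).pos.det_pos.ne'
  have a := alg h hy
  ext i j
  have e1 : dz (fun w => (Real.log ((1 / 2 : ℂ) • muM L (H w)).det.re : ℂ)) i =ᶠ[𝓝 y]
      fun w => trace ((1 / 2 : ℂ) • (zM Q L (H w) * ca H i w * L)) := by
    filter_upwards [isOpen_ball.eventually_mem hy] with w hw
    have b := alg h hw
    have d := (h.sm w hw).df
    have e2 : ((1 / 2 : ℂ) • muM L (H w))⁻¹ = (2 : ℂ) • (muM L (H w))⁻¹ :=
      inv_eq_right_inv (by
        rw [Matrix.smul_mul, Matrix.mul_smul, smul_smul, mul_nonsing_inv _ b.mu.det_pos.ne'.isUnit]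
        norm_num)
    have e3 : (H w - I • Q) * ca H i w = (2 : ℂ) • dR H i w := by
      rw [← b.hj, Matrix.sub_mul, Matrix.smul_mul, Matrix.mul_assoc, (ja h hw i).1,
        Matrix.mul_smul, mul_ca (h.sg w hw).pos.det_pos.ne', smul_smul, I_mul_I]
      module
    rw [dz_log (sm w hw).df ((isOpen_ball.eventually_mem hw).mono pm), e2, zM,
      Matrix.mul_assoc _ _ (ca H i w), e3]
    simp only [muM]
    rw [dR_csmul _ (((DfR.const _).mul d).mul (DfR.const _)), dR_mulc ((DfR.const _).mul d),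
      dR_cmul _ d, trace_mul_comm]
    simp only [Matrix.smul_mul, Matrix.mul_smul, smul_smul, Matrix.mul_assoc]
  have dZ := JzAux.an_df (h.an y hy)
  have dA := (hs.ca h0 i).df
  have e4 : dRb (ca H i) j y =
      (1 / 2 : ℂ) • (ca H i y * cb H j y - cb H j y * ca H i y) := by
    have := ph_eq hs h0 i j
    rw [ph0 h hy] at this
    linear_combination (norm := module) (-1 / 2 : ℂ) • this
  obtain ⟨-, -, a3, a4⟩ := ja h hy j
  have e5 : zM Q L (H y) * cb H j y = 0 := two_I (by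
    rw [← Matrix.smul_mul, ← a.zj, Matrix.mul_assoc, a3, Matrix.mul_smul])
  have e6 : cb H j y * (L * zM Q L (H y)) = cb H j y := by
    have := congrArg (cb H j y * ·) a.pe
    simp only [← Matrix.mul_assoc, Matrix.mul_sub (cb H j y), Matrix.mul_smul, a4, smul_smul,
      I_mul_I, Matrix.mul_one, Matrix.mul_zero, Matrix.sub_mul, Matrix.smul_mul] at this
    rw [← Matrix.mul_assoc]
    linear_combination (norm := module) (-1 / 2 : ℂ) • this
  rw [levi, of_apply, dz_dzb_comm (sm_two (contDiffAt_ofReal.2 (GmAux.sm_log (sm y hy) (pm y hy)))),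
    dzb_congr e1, dzb_tr (DfR.smul (differentiableAt_const _) ((dZ.mul dA).mul (DfR.const L))),
    dRb_csmul _ ((dZ.mul dA).mul (DfR.const L)), dRb_mulc (dZ.mul dA), dRb_mul dZ dA,
    dRb_an (h.an y hy), Matrix.zero_mul, zero_add, e4, Matrix.mul_smul, Matrix.mul_sub,
    ← Matrix.mul_assoc _ (cb H j y), e5, Matrix.zero_mul, sub_zero, Matrix.smul_mul, trace_smul,
    trace_smul, trace_mul_comm _ L, ← Matrix.mul_assoc, ← Matrix.mul_assoc, trace_mul_comm,
    ← Matrix.mul_assoc, e6, trace_mul_comm, tauL, of_apply, smul_eq_mul, smul_eq_mul]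
  ring

end LocA

open LocA in
theorem locS : LocS := by
  intro ι r _ _ _ _ s Q L H β R mo y hy
  have h := mo.toMo0
  refine ⟨ph0 h hy, fun i k => two_I ?_, ?_⟩
  · rw [← Matrix.mul_smul, ← (ja h hy k).1, ← Matrix.mul_assoc, (ja h hy i).2.1, Matrix.smul_mul]
  · have s1 := GmAux.sm_log ((((SmR.const Lᵀ).mul (h.sm y hy)).mul (SmR.const L)).csmul (1 / 2))
      ((alg h hy).mu.smul (by norm_num [Complex.pos_iff]))
    have s2 := GmAux.sm_log (mo.kon.1.1 y hy) (mo.kon.2 y hy)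
    have e := levi_add (sm_two (contDiffAt_ofReal.2 s1)) (sm_two (contDiffAt_ofReal.2 s2))
    have e0 := mo.lev y hy
    simp only [psi, ofReal_add] at e0
    rw [← lev h hy, ric, ← e0]
    simp only [muM]
    rw [e]
    abel

end Pool.Agent.Lib.MP_813db1_ag.VH.HB
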