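import Pool.Agent.Lib.MP_813db1_ag.VH.HB.St
import Pool.Agent.Lib.MP_813db1_ag.VH.RQ0
import Pool.Agent.Lib.MP_813db1_ag.VH.RBoL
import Pool.Agent.Lib.MP_813db1_ag.VH.RAlgN
import Pool.Agent.Lib.MP_813db1_ag.VH.RAlgT
import Pool.Agent.Lib.MP_813db1_ag.VH.REta

/-! The Schwarz lemma for Higgs fields of square zero. -/

namespace Pool.Agent.Lib.MP_813db1_ag.VH.HB

open Pool.Agent.Lib.MP_813db1_ag.HS Pool.Agent.Lib.MP_813db1_ag.AS
open Complex Matrix Filter Topology Set
open scoped ContDiff ComplexOrder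

namespace Sch

open AlT

variable {ι r : Type} [Fintype ι] [DecidableEq ι] [Fintype r] [DecidableEq r] {H : Mat r}

theorem ip (pH : H.PosDef) {B B' : Mat r} (e : Bᴴ * H = H * B') (A : Mat r) :
    ipE H A B = trace (A * B') := by
  rw [ipE, Matrix.mul_assoc, e, Matrix.mul_assoc A,
    nonsing_inv_mul_cancel_left _ _ pH.det_pos.ne'.isUnit]

theorem one (pH : H.PosDef) (re : H.map star = H) {A : Mat r} (hA : Aᵀ * H = H * A)
    (h2 : A * A = 0) : nE H A ^ 2 ≤ Fintype.card r * nE H (A.map star * A - A * A.map star) := by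
  have N := (algN Unit r 1 H PosDef.one pH).2
  have a1 : Aᴴ * H = H * A.map star := sym_star re hA
  have a2 : (A.map star)ᴴ * H = H * A := by
    rw [← hA]
    congr 1
    ext i j
    simp
  have a3 : A.map star * A.map star = 0 := by
    have := congrArg (fun B : Mat r => B.map (starRingEnd ℂ)) h2
    simp only [Matrix.map_mul] at this
    exact this.trans (by ext; simp)
  generalize A.map star = B at *
  have a4 : (B * A)ᴴ * H = H * (B * A) := by
    rw [conjTranspose_mul, Matrix.mul_assoc, a2, ← Matrix.mul_assoc, a1, Matrix.mul_assoc]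
  have k1 := (N.2.2.2.1 (B * A - A * B) (B * A)).2.2
  have k2 := (N.2.2.2.1 (B * A) 1).2.2
  rw [Matrix.sub_mul, Matrix.mul_assoc A B, ← Matrix.mul_assoc B B, a3, Matrix.zero_mul,
    Matrix.mul_zero, sub_zero, ← ip pH a4] at k1
  rw [Matrix.mul_one, trace_mul_comm, ← ip pH a1, nE, nE, ip pH (B := 1) (B' := 1) (by simp),
    Matrix.mul_one, trace_one, natCast_re] at k2
  have n1 := (N.1 (B * A)).1
  have n2 := (N.1 (B * A - A * B)).1
  have k3 : nE H (B * A) ≤ nE H (B * A - A * B) := by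
    refine le_of_not_gt fun c => ?_
    have := (pow_le_pow_left₀ n1 (re_le_norm _) 2).trans k1
    nlinarith
  refine ((pow_le_pow_left₀ (N.1 A).1 (re_le_norm _) 2).trans k2).trans ?_
  rw [mul_comm]
  exact mul_le_mul_of_nonneg_left k3 (Nat.cast_nonneg _)

theorem alg {h : Mat ι} {θ : ι → Mat r} (P : Pt h H θ) (h2 : ∀ i k, θ i * θ k = 0) :
    trm h (grE H θ) ^ 2 ≤ Fintype.card ι * Fintype.card r * (tg h fun l k => tg h fun i j =>
      ipE H ((θ k).map star * θ i - θ i * (θ k).map star)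
        ((θ l).map star * θ j - θ j * (θ l).map star)).re := by
  obtain ⟨J, hJ, -⟩ := ex_frame P.ph PosSemidef.zero
  have N := (algN ι r h H P.ph P.pH).2.1
  have sub : (∀ A A' B, ipE H (A - A') B = ipE H A B - ipE H A' B) ∧
      ∀ A B B', ipE H A (B - B') = ipE H A B - ipE H A B' := by
    simp [ipE, sub_mul, mul_sub]
  have e := tg2 hJ (fun x y z w : Mat r => ipE H (y.map star * z - z * y.map star)
    (x.map star * w - w * x.map star)) (fun _ _ => ?_) (fun _ _ => ?_) θ θ θ θ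
  · rw [e, trm_tg, show (tg h fun i j => grE H θ i j) = _ from tg1 hJ sqE θ θ, re_sum, re_sum,
      mul_assoc]
    refine sq_sum_le_card_mul_sum_sq.trans (mul_le_mul_of_nonneg_left ?_ (Nat.cast_nonneg _))
    rw [Finset.mul_sum]
    refine Finset.sum_le_sum fun q _ => (one P.pH P.re ?_ ?_).trans
      (mul_le_mul_of_nonneg_left ?_ (Nat.cast_nonneg _))
    · simp only [fr, transpose_sum, transpose_smul, Matrix.sum_mul, Matrix.mul_sum, Matrix.smul_mul,
        Matrix.mul_smul, P.sym]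
    · simp only [fr, Matrix.sum_mul, Matrix.mul_sum, Matrix.smul_mul, Matrix.mul_smul, h2,
        smul_zero, Finset.sum_const_zero]
    · rw [re_sum]
      exact Finset.single_le_sum (f := fun i => nE H ((fr J θ q).map star * fr J θ i -
        fr J θ i * (fr J θ q).map star)) (fun i _ => (N _).1) (Finset.mem_univ q)
  · constructor <;> intros <;> simp only [cs, lin, sub, Matrix.add_mul, Matrix.mul_add,
      Matrix.smul_mul, Matrix.mul_smul, smul_eq_mul, star_star] <;> ring
  · constructor <;> intros <;> simp only [lin, sub, Matrix.add_mul, Matrix.mul_add,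
      Matrix.smul_mul, Matrix.mul_smul, smul_eq_mul] <;> ring

end Sch

open RQ0

theorem schS {ι X Y G : Type} [Fintype ι] [DecidableEq ι] [TopologicalSpace X] [CompactSpace X]
    [TopologicalSpace Y] [Group G] [MulAction G Y] {M : Atl ι X} {p : Y → X}
    (hq : IsQuotientCoveringMap p G) : SchS M p G := by
  intro r _ _ D τ ph tau nl
  obtain ⟨E, b, hE⟩ := enS hq r D τ ph tau
  have A := AY.repA' ι X M
  have B := AY.repB' ι X M
  have sτ : M.SmF τ := smF_of hq tau fun e he z hz s hs i j =>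
    ((((D.sm e he z hz s hs).ca (D.det_ne _) i).mul
      ((D.sm e he z hz s hs).cb (D.det_ne _) j)).trace).div_const 4
  have c0 : (0 : ℝ) ≤ Fintype.card ι * Fintype.card r := by positivity
  refine ⟨Fintype.card ι * Fintype.card r + 1, by linarith, fun h hh ric y => ?_⟩
  have pd := ((A.isK_iff _).1 hh).2
  have pτ : ∀ y, (τ y).PosSemidef := fun y => by
    obtain ⟨s, -, hs⟩ := hE.f.gr.base hq y
    rw [A.repF_self] at hs
    rw [hs]
    exact (algN ι _ (h y) _ (pd y) (E.pos _)).2.2.1 _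
  have c2 : M.Ck 2 fun y => trm (h y) (τ y) := fun e he z hz =>
    (A.ck_trm _ τ hh sτ e he z hz).of_le (by norm_cast)
  obtain ⟨y0, -, hy0⟩ := isCompact_univ.exists_isMaxOn ⟨y, mem_univ y⟩
    (A.cont _ fun e he z hz => (c2 e he z hz).of_le (by norm_cast)).continuousOn
  have m0 := mat.trm_nonneg ι _ _ (pd y0) (B.max _ y0 c2 fun y => hy0 (mem_univ y))
  rw [trm_neg, neg_nonneg] at m0
  have he := M.ch_mem y0
  have hz := (M.ch y0).map_source (M.mem y0)
  obtain ⟨t, ht⟩ := sec_ex' hq hz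
  have b2 := boch hq boL hE.ph hE.f sτ hh y0 rfl rfl ht
  have gτ := (A.repF_self τ y0).symm.trans (hE.f.gr _ he _ hz t ht)
  have v := hE.val _ he _ hz t ht
  have z2 := hE.hol.ev (lh hq) he hz ht
  have com := hE.com _ he _ hz t ht
  have ad := hE.ad _ he _ hz t ht
  have n0 := nl _ he _ hz t ht
  generalize M.ch y0 y0 = z at *
  have gθ : grE (D.H (t z)) (th (D.H ∘ t) z) = τ y0 := by
    rw [gτ]
    ext i j
    rw [gr, grE, of_apply, of_apply, v, v, hE.ip]
  have al := Sch.alg (h := h y0) (H := D.H (t z)) (θ := th (D.H ∘ t) z)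
    ⟨pd y0, D.pos _, D.reH _, fun k => by
      rw [th, transpose_smul, Matrix.smul_mul, Matrix.mul_smul, Dt.ca_sym]⟩ fun i k => by
    rw [th, th, Matrix.smul_mul, Matrix.mul_smul, n0, smul_zero, smul_zero]
  have NE := (algN ι _ _ _ (pd y0) (E.pos (t z))).1
  have k2 : q1 (h y0) (E.H (t z)) (fun k i => th (E.H ∘ t) z k *ᵥ b (M.ch y0) (t z) i) = 0 := by
    simp only [th, smul_mulVec, com, smul_zero]
    simp [q1, tg, ipV]
  have k3 : ∀ k i, (th (E.H ∘ t) z k).map star *ᵥ b (M.ch y0) (t z) i =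
      vec ((th (D.H ∘ t) z k).map star * th (D.H ∘ t) z i -
        th (D.H ∘ t) z i * (th (D.H ∘ t) z k).map star) := fun k i => by
    rw [v, th, AlT.cs.2.1, Dt.ca_conj, smul_mulVec, (ad k _).2, th.eq_1 _ z k, AlT.cs.2.1,
      Dt.ca_conj, Matrix.smul_mul, Matrix.mul_smul, ← smul_sub]
    rfl
  have k4 := t2_ric (pd y0) (τ y0) (M.ricF h y0 + h y0) 0 1 0
  rw [ofReal_one, one_smul, ofReal_zero, zero_smul, add_zero, neg_add_cancel_comm_assoc] at k4
  rw [cr_zero _ z2, k2, k4] at b2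
  simp only [k3, q2, hE.ip] at b2
  rw [gθ] at al
  have u2 := mat.trm_nonneg ι _ _ (pd y0) (pτ y0)
  have u3 : trm (h y0) (τ y0) ≤ Fintype.card ι * Fintype.card r := by
    refine le_of_not_gt fun c => ?_
    have a1 := (NE (n1 (M.repF h (M.ch y0)) (E.H ∘ t) (fun w => b (M.ch y0) (t w)) z)).1
    have a2 := (NE (n2 (E.H ∘ t) (fun w => b (M.ch y0) (t w)) z)).2.1
    have a3 := ((algN ι r _ _ (pd y0) (D.pos (t z))).2.2.2.2.2 _ _ (pτ y0) (ric y0)).1
    rw [q2] at a2
    rw [← Atl.lap, b2, zero_re] at m0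
    have := al.trans (mul_le_mul_of_nonneg_left (c := trm (h y0) (τ y0)) (by linarith) c0)
    nlinarith
  have u4 : trm (h y) (τ y) ≤ Fintype.card ι * Fintype.card r := (hy0 (mem_univ y)).trans u3
  have := (mat.le_trm ι _ _ (pd y) (pτ y)).add ((pd y).posSemidef.smul
    (a := ((Fintype.card ι * Fintype.card r + 1 - trm (h y) (τ y) : ℝ) : ℂ))
    (zero_le_real.2 (by linarith)))
  rwa [sub_add_eq_add_sub, ← add_smul, ← ofReal_add, add_sub_cancel] at this

end Pool.Agent.Lib.MP_813db1_ag.VH.HB
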