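import Pool.Agent.Lib.MP_813db1_ag.VH.HB.St
import Pool.Agent.Lib.MP_813db1_ag.VH.S8.Pb

/-! The projection to the space of leaves. -/

namespace Pool.Agent.Lib.MP_813db1_ag.VH.HB

open Pool.Agent.Lib.MP_813db1_ag.HS Pool.Agent.Lib.MP_813db1_ag.AS Pool.Agent.Lib.MP_813db1_ag.VH.S8
open Complex Matrix Filter Topology Set Metric
open scoped ComplexOrder

set_option linter.unusedSectionVars false

variable {ι X Y G r : Type} [Fintype ι] [DecidableEq ι] [TopologicalSpace X] [TopologicalSpace Y]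
  [Group G] [MulAction G Y] [Fintype r] [DecidableEq r] {M : Atl ι X} {p : Y → X}
  {E : Dt M p G r} {Q : Mat r} {c : G → V r} {x : Y → V r} {h : X → Mat ι} {s : Finset ι}
  {L : Matrix r (Sg' s) ℂ} {B : Fb E Q c x h s L}

namespace SubA

theorem nV_pull (J A : Mat ι) (v : V ι) : nV (pull J A) v = nV A (J *ᵥ v) := by
  have e : J.map star *ᵥ star v = star (J *ᵥ v) := by
    ext i
    simp [mulVec, dotProduct]
  rw [nV, nV, ipV_eq, ipV_eq, pull, ← mulVec_mulVec, ← mulVec_mulVec, e, dotProduct_mulVec,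
    vecMul_transpose]

theorem nV_pos {A : Mat ι} (h : A.PosDef) {v : V ι} (hv : v ≠ 0) : 0 < nV A v := by
  have := h.re_dotProduct_pos (x := star v) (star_ne_zero.2 hv)
  rwa [star_star, ← ipV_eq] at this

theorem nV_bk (β : Mat (Ta s)) (v : V ι) : nV (bk s 0 0 0 β) v = nV β (yp s v) := by
  rw [nV, nV, ipV_eq, ipV_eq, bk_mulVec, dotProduct, bk_sum_split]
  simp only [zero_mulVec, add_zero, zero_add]
  rw [Finset.sum_eq_zero fun i _ => by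
    rw [show glue s 0 (β *ᵥ yp s (star v)) i = 0 from congrFun (zp_glue s _ _) i, mul_zero],
    zero_add]
  exact congrArg re (Finset.sum_congr rfl fun i _ =>
    congrArg (v i * ·) (congrFun (yp_glue s _ _) i))

/-- the transversal projection. -/
noncomputable def yL (s : Finset ι) : V ι →L[ℂ] V (Ta s) :=
  ContinuousLinearMap.pi fun i => ContinuousLinearMap.proj (R := ℂ) (φ := fun _ : ι => ℂ) i.1

theorem surj_of {J : Mat ι} (hJ : J.det ≠ 0) : Function.Surjective fun v => J *ᵥ v := fun t =>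
  ⟨J⁻¹ *ᵥ t, by simp only [mulVec_mulVec, mul_nonsing_inv _ hJ.isUnit, one_mulVec]⟩

theorem rel_of {k l : B.κ} {g : G} {v v' : r → ℝ} {y y' : V (Ta s)} (hy : y ∈ B.Bl k)
    (hy' : y' ∈ B.Bl l) (e : g • B.Ψ k v y = B.Ψ l v' y') : B.Rel k l g y y' := by
  obtain ⟨φ, e1, -, e2⟩ := B.lt k l g v v' y hy y' hy' e
  exact ⟨hy, hy', e1 ▸ e2.self_of_nhds⟩

theorem ex_pt (B : Fb E Q c x h s L) (u : Y) : ∃ t : G × Σ _ : B.κ, (r → ℝ) × V (Ta s),
    t.2.2.2 ∈ B.Bl t.2.1 ∧ t.1 • B.Ψ t.2.1 t.2.2.1 t.2.2.2 = u := by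
  obtain ⟨θ, hθ, T, hc⟩ := B.cov
  obtain ⟨g, k, v, y, -, hy, e⟩ := hc u
  exact ⟨⟨g⁻¹, k, v, y⟩, mem_ball_zero_iff.2
    (hy.trans_lt (mul_lt_of_lt_one_left (B.mo k).pos hθ)), by rw [← e, inv_smul_smul]⟩

end SubA

open SubA in
theorem subS (ok : B.Ok) (hO : B.OvS ok) (hD : B.DiS) (hq : IsQuotientCoveringMap p G) :
    SubS B ok := by
  intro H Z Bs Γ _ _ _ _ q θ π N hL hN
  have := hq.toContinuousConstSMul
  choose t ht using ex_pt B
  have key : ∀ γ k v, ∀ y ∈ B.Bl k, θ (t (γ • B.Ψ k v y)).1 (t (γ • B.Ψ k v y)).2.1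
      (t (γ • B.Ψ k v y)).2.2.2 = θ γ k y := fun γ k v y hy =>
    (hL.rel _ _ _ _ _ (ht _).1 _ hy).2
      (rel_of (ht _).1 hy (by rw [mul_smul, (ht _).2, inv_smul_smul]))
  generalize hf : (fun u => q (θ (t u).1 (t u).2.1 (t u).2.2.2)) = f
  have hv : ∀ γ k v, ∀ y ∈ B.Bl k, f (γ • B.Ψ k v y) = q (θ γ k y) := fun γ k v y hy => by
    rw [← hf]
    exact congrArg q (key γ k v y hy)
  refine ⟨f, fun γ hγ u => ?_, fun b => ?_, loc_of (fun u => ?_) fun e z s₁ e' z' s₂ T k => ?_⟩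
  · rw [← (ht u).2, ← mul_smul, hv _ _ _ _ (ht u).1, hv _ _ _ _ (ht u).1,
      ← hL.eqv ⟨γ, hγ⟩ _ _ _ (ht u).1, hL.hq.map_smul]
  · obtain ⟨z, rfl⟩ := hL.hq.surjective b
    obtain ⟨γ, k, y, hy, rfl⟩ := hL.cov z
    exact ⟨_, hv γ k 0 y hy⟩
  · obtain ⟨k, w, hw, e0⟩ := hO.surj (p u)
    obtain ⟨γ, hγ⟩ := hq.apply_eq_iff_mem_orbit.1 e0.symm
    obtain ⟨e, he, hwe, hΘ⟩ := B.lh k w hw
    have cy : ContinuousAt (yp s) w := (yL s).continuous.continuousAt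
    have ev : (f ∘ fun w => γ • B.Θt k w) =ᶠ[𝓝 w] (q ∘ θ γ k) ∘ yp s :=
      (cy.eventually (isOpen_ball.mem_nhds hw)).mono fun w' hw' => hv γ k _ _ hw'
    obtain ⟨-, c1, -, -, d1⟩ := (pbS N).ev _ _ (hN γ k _ hw)
    obtain ⟨e₁, he₁, hw₁, hΘ₁⟩ := hN γ k _ hw
    have a1 := PbA.an_ch N he₁ hw₁ hΘ₁
    have e1 : f (γ • B.Θt k w) = (q ∘ θ γ k) (yp s w) := ev.self_of_nhds
    have ev2 : (N.ch (f (γ • B.Θt k w)) ∘ f ∘ fun w => γ • B.Θt k w) =ᶠ[𝓝 w]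
        (N.ch ((q ∘ θ γ k) (yp s w)) ∘ q ∘ θ γ k) ∘ yp s := by
      rw [e1]
      exact ev.fun_comp _
    have fd : ∀ v, fderiv ℂ (N.ch (f (γ • B.Θt k w)) ∘ f ∘ fun w => γ • B.Θt k w) w v =
        jac (N.ch ((q ∘ θ γ k) (yp s w)) ∘ q ∘ θ γ k) (yp s w) *ᵥ yp s v := fun v => by
      rw [ev2.fderiv_eq, jac_mulVec]
      exact congrArg (· v) (a1.differentiableAt.hasFDerivAt.comp w (yL s).hasFDerivAt).fderiv
    refine ⟨e, he, w, hwe, fun w => γ • B.Θt k w, ⟨(hO.cont k w hw).const_smul γ,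
      hΘ.mono fun w' e' => (hq.map_smul γ).trans e'.symm⟩, hγ, (c1.comp cy).congr ev.symm,
      (a1.comp ((yL s).analyticAt w)).congr ev2.symm, fun b => ?_, fun v => ?_⟩
    · obtain ⟨a, ha⟩ := surj_of d1 b
      exact ⟨glue s 0 a, by rw [fd, yp_glue]; exact ha⟩
    · rw [fd, (((pbS M).rep e he w hwe _ hΘ).2 _).self_of_nhds]
      change _ ↔ nV (pbF M _ (B.Θ k) w) v = 0
      rw [hD.ric k w hw, nV_bk]
      refine ⟨fun h0 => ?_, fun h0 => ?_⟩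
      · rw [eq_zero_of_mulVec_eq_zero d1 h0]
        simp [nV, ipV]
      · by_contra h1
        exact (nV_pos ((B.mo k).kon.2 _ hw) fun h2 => h1 (by rw [h2, mulVec_zero])).ne' h0
  · obtain ⟨k1, k2, k3, k4⟩ := k
    have ev := T.comp (lh hq) f
    have ev2 : (N.ch (f (s₁ z)) ∘ f ∘ s₁) =ᶠ[𝓝 z] (N.ch (f (s₂ z')) ∘ f ∘ s₂) ∘ (e' ∘ e.symm) := by
      rw [T.eq]
      exact ev.fun_comp _
    have fd : ∀ v, fderiv ℂ (N.ch (f (s₁ z)) ∘ f ∘ s₁) z v =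
        fderiv ℂ (N.ch (f (s₂ z')) ∘ f ∘ s₂) z' (tj e e' (e.symm z) *ᵥ v) := fun v => by
      rw [ev2.fderiv_eq, fderiv_comp z (by rw [T.pt]; exact k2.differentiableAt)
        T.an.differentiableAt, T.pt, ← T.jac_eq, jac_mulVec]
      rfl
    refine ⟨(ContinuousAt.comp (by rw [T.pt]; exact k1) T.an.continuousAt).congr ev.symm,
      (k2.comp_of_eq T.an T.pt).congr ev2.symm, fun b => ?_, fun v => ?_⟩
    · obtain ⟨a, ha⟩ := k3 b
      obtain ⟨a', ha'⟩ := surj_of T.det_ne a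
      exact ⟨a', by rw [fd]; exact (congrArg _ ha').trans ha⟩
    · rw [fd, k4, T.repF, nV_pull]

end Pool.Agent.Lib.MP_813db1_ag.VH.HB
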