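import Pool.Agent.Lib.MP_813db1_ag.VH.HB.Free
import Pool.Agent.Lib.MP_813db1_ag.VH.HB.Lf
import Pool.Agent.Lib.MP_813db1_ag.VH.HB.At
import Pool.Agent.Lib.MP_813db1_ag.VH.HB.Loc
import Pool.Agent.Lib.MP_813db1_ag.VH.HB.Dt
import Pool.Agent.Lib.MP_813db1_ag.VH.HB.Sub
import Pool.Agent.Lib.MP_813db1_ag.VH.HB.Sch
import Pool.Agent.Lib.MP_813db1_ag.VH.HB.Amp
import Pool.Agent.Lib.MP_813db1_ag.VH.HB.Bog
import Pool.Agent.Lib.MP_813db1_ag.VH.S8.All8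
import Pool.Agent.Lib.MP_bbd4b9_ag.NH.Fg

/-! The rigid situation: either the group is virtually abelian or there is a Bogomolov sheaf. -/

namespace Pool.Agent.Lib.MP_813db1_ag.VH.HB

open Pool.Agent.Lib.MP_813db1_ag.HS Pool.Agent.Lib.MP_813db1_ag.AS Pool.Agent.Lib.MP_813db1_ag.VH.S8
open scoped ContDiff Manifold

variable {ι X Y G : Type} [Fintype ι] [DecidableEq ι] [Nonempty ι] [TopologicalSpace X] [T2Space X]
  [CompactSpace X] [ConnectedSpace X] [ChartedSpace (ι → ℂ) X] [IsManifold 𝓘(ℂ, ι → ℂ) ω X]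
  [TopologicalSpace Y] [SimplyConnectedSpace Y] [Group G] [MulAction G Y] {M : Atl ι X} {p : Y → X}
  {m : ℕ} {E : Dt M p G (Fin (2 * m))} {Q : Mat (Fin (2 * m))} {c : G → V (Fin (2 * m))}
  {x : Y → V (Fin (2 * m))} {h ξ : X → Mat ι}

theorem noBog (K : Kahler ι X) (hA : atlas (ι → ℂ) X ⊆ M.A)
    (hch : ∀ x, M.ch x = chartAt (ι → ℂ) x) (hq : IsQuotientCoveringMap p G)
    (hS : E.Spl Q c x h ξ) (hm : m < Fintype.card ι) : ¬MP_bbd4b9_ag.SP.NoBog ι X := by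
  borelize X
  obtain ⟨s, L, B, rfl, ok⟩ := exFb hq hS
  have hO := Fb.ovS hq hS ok
  obtain ⟨N, hN⟩ := Fb.lat ok (Fb.eucS hS ok)
    (Fb.fixS hS ok (Fb.lxS hS ok hO) (Fb.zcS hS ok hO) (Fb.abZS ok)
      (Fb.invB hq ok (invS8 (flatS hq) tenS dualS hS) hO))
    (Fb.bochS8 (pbS M) hS ok hO (Fb.genS8 ok))
  obtain ⟨H, hH⟩ := freeS (B.pg ok) (MP_bbd4b9_ag.NH.fg_deck hq) N hN
  obtain ⟨Z, Bs, Γ, _, _, _, _, _, _, _, q, θ, π, hL⟩ := lfS (B.pg ok) N hN H hH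
  obtain ⟨N', hN'⟩ := atS _ _ _ Z Bs Γ (B.pg ok) H q θ π hL fun k l γ y y' a =>
    (hO.hol k l γ y y' a).1
  have : Nonempty (Ta s) := Fintype.card_pos_iff.1 (by rw [card_ta]; omega)
  obtain ⟨D, τ, β, d1, d2, d3, d4, d5⟩ := dtS locS ok hO H Z Bs Γ q θ π N' hL hN'
  obtain ⟨f, hf⟩ := subS ok hO (Fb.diS hS ok hO) hq H Z Bs Γ q θ π N' hL hN'
  exact bogS hA hch hq K H _ Bs N' _ f hH.2.1 hf
    (ampS hL.hq (schS hL.hq) _ D τ β d1 d2 d3 d4 d5)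

theorem vab (K : Kahler ι X) (hA : atlas (ι → ℂ) X ⊆ M.A)
    (hch : ∀ x, M.ch x = chartAt (ι → ℂ) x) (hq : IsQuotientCoveringMap p G)
    (hS : E.Spl Q c x h ξ) (hB : MP_bbd4b9_ag.SP.NoBog ι X) :
    ∃ H : Subgroup G, H.FiniteIndex ∧ ∀ a ∈ H, ∀ b ∈ H, a * b = b * a :=
  abV hq m E Q c x h ξ hS (not_lt.1 fun hm => noBog K hA hch hq hS hm hB)

end Pool.Agent.Lib.MP_813db1_ag.VH.HB
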