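import Pool.Agent.Lib.MP_813db1_ag.VH.HB.St

/-! A subgroup of finite index whose elements fixing a leaf are translations. -/

namespace Pool.Agent.Lib.MP_813db1_ag.VH.HB

open Pool.Agent.Lib.MP_813db1_ag.VH.S8
open Matrix Set Metric

namespace FreeA

theorem one_add_pow {R : Type} [Ring R] (u : R) (d : ℕ) :
    ∃ w, (1 + u) ^ d = 1 + d • u + u * u * w := by
  induction d with
  | zero => exact ⟨0, by simp⟩
  | succ d ih =>
    obtain ⟨w, hw⟩ := ih
    refine ⟨w + d + u * w, ?_⟩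
    rw [pow_succ', hw, succ_nsmul, nsmul_eq_mul]
    have := (Nat.cast_commute d u).eq
    simp only [mul_add, add_mul, one_mul, mul_one, mul_assoc, this]
    abel

variable {n : Type} [Fintype n] [DecidableEq n]

omit [Fintype n] in
theorem eq_one (N : Matrix n n ℤ) (h0 : ∀ i j, 3 ∣ (N - 1) i j)
    (h : ∀ (a : ℕ) (B : Matrix n n ℤ), N = 1 + (3 : ℤ) ^ (a + 1) • B → ∀ i j, 3 ∣ B i j) :
    N = 1 := by
  have key : ∀ a : ℕ, ∃ B : Matrix n n ℤ, N = 1 + (3 : ℤ) ^ (a + 1) • B := by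
    intro a
    induction a with
    | zero =>
      choose B hB using h0
      refine ⟨of B, ?_⟩
      rw [← sub_eq_iff_eq_add']
      ext i j
      simp [← hB]
    | succ a ih =>
      obtain ⟨B, hB⟩ := ih
      choose C hC using h a B hB
      refine ⟨of C, ?_⟩
      rw [hB]
      congr 1
      ext i j
      simp only [Matrix.smul_apply, smul_eq_mul, of_apply, hC]
      ring
  rw [← sub_eq_zero]
  ext i j
  obtain ⟨B, hB⟩ := key ((N - 1) i j).natAbs
  have h1 : (3 : ℤ) ^ (((N - 1) i j).natAbs + 1) ∣ (N - 1) i j := by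
    refine ⟨B i j, ?_⟩
    generalize ((N - 1) i j).natAbs + 1 = a at hB ⊢
    rw [hB, add_sub_cancel_left, Matrix.smul_apply, smul_eq_mul]
  refine Int.eq_zero_of_abs_lt_dvd h1 ?_
  have h2 : ((N - 1) i j).natAbs < 3 ^ (((N - 1) i j).natAbs + 1) :=
    (Nat.lt_succ_self _).trans (Nat.lt_pow_self (by norm_num))
  rw [Int.abs_eq_natAbs]
  exact_mod_cast h2

theorem cong_pow (N : Matrix n n ℤ) (h0 : ∀ i j, 3 ∣ (N - 1) i j) (d : ℕ) :
    ∀ i j, 3 ∣ (N ^ d - 1) i j := by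
  induction d with
  | zero => simp
  | succ d ih =>
    intro i j
    have e : N ^ (d + 1) - 1 = (N ^ d - 1) * N + (N - 1) := by
      rw [pow_succ, sub_mul, one_mul]
      abel
    rw [e, Matrix.add_apply, mul_apply]
    exact dvd_add (Finset.dvd_sum fun k _ => (ih i k).mul_right _) (h0 i j)

/-- the lemma of Minkowski. -/
theorem mink (d : ℕ) : 0 < d → ∀ N : Matrix n n ℤ, (∀ i j, 3 ∣ (N - 1) i j) → N ^ d = 1 →
    N = 1 := by
  induction d using Nat.strong_induction_on with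
  | _ d ih =>
    intro hd N h0 h1
    by_cases h3 : 3 ∣ d
    · obtain ⟨e, rfl⟩ := h3
      refine ih e (by omega) (by omega) N h0 (eq_one _ (cong_pow N h0 e) fun a B hB i j => ?_)
      rw [mul_comm, pow_mul, hB] at h1
      have e1 : (1 + (3 : ℤ) ^ (a + 1) • B) ^ 3 = 1 + (3 : ℤ) ^ (a + 2) •
          (B + (3 : ℤ) • ((3 : ℤ) ^ a • (B * B) + (3 : ℤ) ^ (2 * a) • (B * B * B))) := by
        simp only [pow_succ (1 + (3 : ℤ) ^ (a + 1) • B), pow_zero, mul_add, add_mul, one_mul,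
          mul_one, smul_mul_assoc, mul_smul_comm, smul_add, smul_smul]
        module
      rw [e1, add_eq_left] at h1
      have h2 := congrFun (congrFun h1 i) j
      simp only [Matrix.smul_apply, Matrix.add_apply, smul_eq_mul, Matrix.zero_apply,
        mul_eq_zero] at h2
      rcases h2 with h2 | h2
      · exact absurd h2 (by positivity)
      · exact ⟨_, eq_neg_of_add_eq_zero_left h2 |>.trans (mul_neg _ _).symm⟩
    · refine eq_one _ h0 fun a B hB i j => ?_
      obtain ⟨w, hw⟩ := one_add_pow ((3 : ℤ) ^ (a + 1) • B) d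
      rw [← hB, h1, add_assoc, left_eq_add] at hw
      have h2 := congrFun (congrFun hw i) j
      simp only [smul_mul_assoc, mul_smul_comm, Matrix.smul_apply, Matrix.add_apply,
        Matrix.zero_apply] at h2
      simp only [smul_eq_mul, nsmul_eq_mul] at h2
      have h4 : (3 : ℤ) ^ (a + 1) * (d * B i j + 3 * (3 ^ a * (B * B * w) i j)) = 0 := by
        rw [← h2]
        ring
      have h5 := (mul_eq_zero.1 h4).resolve_left (by positivity)
      have h6 : (3 : ℤ) ∣ d * B i j := ⟨_, eq_neg_of_add_eq_zero_left h5 |>.trans (mul_neg _ _).symm⟩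
      exact (Int.prime_three.dvd_or_dvd h6).resolve_left fun h7 => h3 (by exact_mod_cast h7)

variable {G : Type} [Group G]

theorem cong (M : G → Matrix n n ℤ) (M1 : M 1 = 1) (hM : ∀ a b, M (a * b) = M a * M b)
    (z : G → n → ℤ) (hz : ∀ a b, z (a * b) = z a + M a *ᵥ z b) (m : ℕ) (hm : 0 < m) :
    ∃ H : Subgroup G, H.Normal ∧ H.FiniteIndex ∧ ∀ γ ∈ H, (∀ i j, (m : ℤ) ∣ (M γ - 1) i j) ∧
      ∀ i, (m : ℤ) ∣ z γ i := by
  have : NeZero m := ⟨hm.ne'⟩
  have z1 : z 1 = 0 := by simpa [M1] using hz 1 1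
  let ψ : G →* Function.End (n → ZMod m) :=
    { toFun := fun γ v => (Int.castRingHom (ZMod m) ∘ z γ) +
        (M γ).map (Int.castRingHom (ZMod m)) *ᵥ v
      map_one' := by
        funext v
        rw [z1, M1]
        ext i
        simp [Function.End.one_def]
      map_mul' := fun a b => by
        funext v
        rw [Function.End.mul_def, Function.comp_apply, hz, hM, Matrix.map_mul, mulVec_add,
          mulVec_mulVec, ← add_assoc]
        congr 1
        ext i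
        simp [mulVec, dotProduct] }
  have : Finite (Function.End (n → ZMod m)) := inferInstanceAs (Finite ((n → ZMod m) → _))
  refine ⟨ψ.toHomUnits.ker, inferInstance, inferInstance, fun γ hγ => ?_⟩
  have h1 : ∀ v, (Int.castRingHom (ZMod m) ∘ z γ) +
      (M γ).map (Int.castRingHom (ZMod m)) *ᵥ v = v :=
    congrFun (congrArg Units.val (MonoidHom.mem_ker.1 hγ))
  have h2 := h1 0
  rw [mulVec_zero, add_zero] at h2
  refine ⟨fun i j => ?_, fun i => (ZMod.intCast_zmod_eq_zero_iff_dvd _ _).1 (congrFun h2 i)⟩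
  have h3 := congrFun (h1 (Pi.single j 1)) i
  rw [h2, zero_add, mulVec_single_one] at h3
  rw [← ZMod.intCast_zmod_eq_zero_iff_dvd]
  simp only [col_apply, map_apply, eq_intCast] at h3
  simp only [Matrix.sub_apply, Int.cast_sub, h3, one_apply, Pi.single_apply]
  split_ifs <;> simp

theorem denom (hG : Group.FG G) (M : G → Matrix n n ℤ) (M1 : M 1 = 1)
    (x : G → n → ℚ) (hx : ∀ a b i, x (a * b) i = x a i + ∑ j, (M a i j : ℚ) * x b j) :
    ∃ D : ℕ, 0 < D ∧ ∀ γ i, ∃ z : ℤ, (z : ℚ) = D * x γ i := by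
  obtain ⟨S, hS, hf⟩ := Group.fg_iff.1 hG
  have x1 : ∀ i, x 1 i = 0 := fun i => by simpa [M1, one_apply] using hx 1 1 i
  obtain ⟨D, hD⟩ : ∃ D : ℕ, D = ∏ s ∈ hf.toFinset, ∏ i, (x s i).den := ⟨_, rfl⟩
  have D0 : 0 < D := by
    rw [hD]
    exact Finset.prod_pos fun s _ => Finset.prod_pos fun i _ => (x s i).den_pos
  refine ⟨D, D0, fun γ => ?_⟩
  have hγ : γ ∈ Subgroup.closure S := hS ▸ Subgroup.mem_top γ
  induction hγ using Subgroup.closure_induction with
  | mem s hs =>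
    intro i
    have h1 : (x s i).den ∣ D := by
      rw [hD]
      exact (Finset.dvd_prod_of_mem (fun i => (x s i).den) (Finset.mem_univ i)).trans
        (Finset.dvd_prod_of_mem (fun s => ∏ i, (x s i).den) (hf.mem_toFinset.2 hs))
    obtain ⟨e, he⟩ := h1
    refine ⟨e * (x s i).num, ?_⟩
    rw [he]
    push_cast
    rw [← Rat.mul_den_eq_num]
    ring
  | one => exact fun i => ⟨0, by simp [x1]⟩
  | mul a b _ _ ha hb =>
    intro i
    choose u hu using ha
    choose v hv using hb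
    refine ⟨u i + ∑ j, M a i j * v j, ?_⟩
    push_cast
    rw [hx, mul_add, Finset.mul_sum, hu]
    congr 1
    exact Finset.sum_congr rfl fun j _ => by rw [hv]; ring
  | inv a _ ha =>
    intro i
    choose u hu using ha
    refine ⟨-∑ j, M a⁻¹ i j * u j, ?_⟩
    have h1 := hx a⁻¹ a i
    rw [inv_mul_cancel, x1] at h1
    push_cast
    rw [eq_neg_of_add_eq_zero_left h1.symm, mul_neg, Finset.mul_sum]
    congr 1
    exact Finset.sum_congr rfl fun j _ => by rw [hu]; ring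

/-- finitely generated groups of affine maps of a torus are virtually without torsion. -/
theorem alg (hG : Group.FG G) (M : G → Matrix n n ℤ) (M1 : M 1 = 1)
    (hM : ∀ a b, M (a * b) = M a * M b) (x : G → n → ℝ)
    (hx : ∀ a b i, x (a * b) i = x a i + ∑ j, (M a i j : ℝ) * x b j) :
    ∃ H : Subgroup G, H.Normal ∧ H.FiniteIndex ∧ ∀ γ ∈ H, ∀ d : ℕ, 0 < d → M (γ ^ d) = 1 →
      (∀ i, ∃ z : ℤ, (z : ℝ) = x (γ ^ d) i) → M γ = 1 ∧ ∀ i, ∃ z : ℤ, (z : ℝ) = x γ i := by
  obtain ⟨f, hf⟩ := (Algebra.linearMap ℚ ℝ).exists_leftInverse_of_injective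
    (LinearMap.ker_eq_bot.2 (algebraMap ℚ ℝ).injective)
  have f1 : ∀ q : ℚ, f (q : ℝ) = q := fun q => DFunLike.congr_fun hf q
  have hx' : ∀ a b i, f (x (a * b) i) = f (x a i) + ∑ j, (M a i j : ℚ) * f (x b j) := by
    intro a b i
    rw [hx, map_add, map_sum]
    congr 1
    refine Finset.sum_congr rfl fun j _ => ?_
    rw [← zsmul_eq_mul, map_zsmul, zsmul_eq_mul]
  obtain ⟨D, D0, hD⟩ := denom hG M M1 (fun a i => f (x a i)) hx'
  choose z hz using hD
  have hz' : ∀ a b, z (a * b) = z a + M a *ᵥ z b := by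
    intro a b
    ext i
    refine Int.cast_injective (α := ℚ) ?_
    simp only [Pi.add_apply, mulVec, dotProduct]
    push_cast
    rw [hz, hx', mul_add, Finset.mul_sum, hz]
    congr 1
    exact Finset.sum_congr rfl fun j _ => by rw [hz]; ring
  obtain ⟨H, h1, h2, h3⟩ := cong M M1 hM z hz' (3 * D) (by omega)
  refine ⟨H, h1, h2, fun γ hγ d hd e1 e2 => ?_⟩
  obtain ⟨h4, h5⟩ := h3 γ hγ
  have hp : ∀ j : ℕ, M (γ ^ j) = M γ ^ j := fun j => by
    induction j with
    | zero => simpa using M1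
    | succ j ih => rw [pow_succ, pow_succ, hM, ih]
  have h6 : M γ = 1 := mink d hd _ (fun i j => (Dvd.intro _ (by push_cast; rfl)).trans (h4 i j))
    (by rw [← hp, e1])
  refine ⟨h6, fun i => ?_⟩
  have h7 : ∀ j : ℕ, x (γ ^ j) i = j * x γ i := fun j => by
    induction j with
    | zero => simpa [M1, one_apply] using hx 1 1 i
    | succ j ih =>
      rw [pow_succ', hx, h6]
      simp only [one_apply, Int.cast_ite, Int.cast_one, Int.cast_zero, ite_mul, one_mul, zero_mul,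
        Finset.sum_ite_eq, Finset.mem_univ, if_true, ih]
      push_cast
      ring
  obtain ⟨u, hu⟩ := e2 i
  have d0 : (d : ℝ) ≠ 0 := by exact_mod_cast hd.ne'
  have h8 : x γ i = ((u / d : ℚ) : ℝ) := by
    push_cast
    rw [hu, h7]
    field_simp
  obtain ⟨v, hv⟩ := h5 i
  have h9 := hz γ i
  rw [hv, h8, f1] at h9
  have D1 : (D : ℚ) ≠ 0 := by exact_mod_cast D0.ne'
  refine ⟨3 * v, ?_⟩
  have h10 : ((3 * v : ℤ) : ℚ) = u / d := by
    refine mul_left_cancel₀ D1 ?_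
    rw [← h9]
    push_cast
    ring
  rw [h8, ← h10]
  push_cast
  ring

variable {F W : Type} [NormedAddCommGroup F] [NormedSpace ℝ F]
  [NormedAddCommGroup W] [NormedSpace ℂ W] [NormedSpace ℝ W] (P : PG G F W)

/-- the lattice of translations. -/
def lat : AddSubgroup F where
  carrier := P.c '' {γ | P.Fx γ ∧ P.A γ = 1}
  zero_mem' := ⟨1, ⟨PG.Fx.one, map_one _⟩, PG.c_one⟩
  add_mem' := by
    rintro _ _ ⟨γ, ⟨h1, h2⟩, rfl⟩ ⟨δ, ⟨h3, h4⟩, rfl⟩
    exact ⟨γ * δ, ⟨h1.mul h3, by rw [map_mul, h2, h4, one_mul]⟩, by rw [P.coc, h2]; rfl⟩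
  neg_mem' := by
    rintro _ ⟨γ, ⟨h1, h2⟩, rfl⟩
    have e : P.A γ⁻¹ = 1 := by rw [← PG.A_inv_mul (P := P) γ, h2, mul_one]
    exact ⟨γ⁻¹, ⟨h1.inv, e⟩, by rw [PG.c_inv, e]; rfl⟩

theorem lat_fin : {v ∈ (lat P : Set F) | ‖v‖ ≤ 1}.Finite := by
  obtain ⟨k⟩ := P.ne
  refine ((P.disc k k 0 0 1 (P.pos k) (P.pos k)).image P.c).subset ?_
  rintro _ ⟨⟨γ, ⟨h1, -⟩, rfl⟩, h3⟩
  exact ⟨γ, ⟨h3, _, mem_closedBall_self le_rfl, _, mem_closedBall_self le_rfl,
    h1 k _ (PG.yc_mem k)⟩, rfl⟩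

theorem lat_disc : DiscreteTopology (lat P).toIntSubmodule := by
  refine discreteTopology_of_isOpen_singleton_zero ?_
  have h1 : IsOpen (ball (0 : F) 1 ∩ ({v ∈ (lat P : Set F) | ‖v‖ ≤ 1} \ {0})ᶜ) :=
    isOpen_ball.inter ((lat_fin P).sdiff).isClosed.isOpen_compl
  have h2 := h1.preimage (continuous_subtype_val (p := fun v => v ∈ (lat P).toIntSubmodule))
  have e : (Subtype.val : (lat P).toIntSubmodule → F) ⁻¹'
      (ball (0 : F) 1 ∩ ({v ∈ (lat P : Set F) | ‖v‖ ≤ 1} \ {0})ᶜ) = {0} := by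
    ext v
    constructor
    · rintro ⟨a, b⟩
      by_contra hv
      exact b ⟨⟨v.2, (mem_ball_zero_iff.1 a).le⟩, fun h => hv (Subtype.ext h)⟩
    · rintro rfl
      exact ⟨mem_ball_self one_pos, fun h => h.2 rfl⟩
  rwa [e] at h2

variable {P} {N : ℕ}

theorem lat_A (h : P.Lat N) (δ : G) : ∀ u ∈ lat P, P.A δ u ∈ lat P := by
  rintro _ ⟨γ, ⟨h1, h2⟩, rfl⟩
  refine ⟨δ * γ * δ⁻¹, ⟨h.nrm γ δ h1, by rw [map_mul, map_mul, h2, mul_one, PG.A_mul_inv]⟩, ?_⟩
  have e := P.coc δ δ⁻¹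
  rw [mul_inv_cancel, PG.c_one] at e
  rw [P.coc, P.coc, map_mul, h2, mul_one, add_right_comm, ← e, zero_add]

theorem tors (hL : P.Lat N) {k : P.κ} {γ : G} {y : W} (h : P.Rel k k γ y y) :
    ∃ d : ℕ, 0 < d ∧ P.Fx (γ ^ d) ∧ P.A (γ ^ d) = 1 := by
  obtain ⟨R, hR⟩ := hL.cpt
  have hy : dist y (P.yc k) < P.yr k := (P.mem h).1
  have hp : ∀ j : ℕ, P.Rel k k (γ ^ j) y y := fun j => by
    induction j with
    | zero => simpa using P.refl (P.mem h).1
    | succ j ih => rw [pow_succ]; exact P.trans h ih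
  choose t t1 t2 t3 using fun j : ℕ => hR (P.c (γ ^ j))
  obtain ⟨i, j, hij, e⟩ : ∃ i j : ℕ, i < j ∧ t i * γ ^ i = t j * γ ^ j := by
    refine Set.Finite.exists_lt_map_eq_of_forall_mem (f := fun j : ℕ => t j * γ ^ j)
      (fun j => ?_) (P.disc k k _ _ R hy hy)
    exact ⟨by rw [P.coc, t2, add_comm]; exact t3 j, y,
      mem_closedBall.2 le_rfl, y, mem_closedBall.2 le_rfl, P.trans (hp j) (t1 j k y (P.mem h).1)⟩
  obtain ⟨d, rfl⟩ := Nat.exists_eq_add_of_lt hij
  have e2 : γ ^ (d + 1) = (t (i + d + 1))⁻¹ * t i := by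
    rw [eq_inv_mul_iff_mul_eq]
    refine mul_right_cancel (b := γ ^ i) ?_
    rw [e, mul_assoc, ← pow_add]
    congr 2
    ring
  refine ⟨d + 1, d.succ_pos, e2 ▸ (t1 _).inv.mul (t1 i), ?_⟩
  rw [e2, map_mul, t2, mul_one, ← PG.A_inv_mul (P := P) (t (i + d + 1)), t2, mul_one]

end FreeA

open FreeA in
theorem freeS {G F W : Type} [Group G] [NormedAddCommGroup F] [NormedSpace ℝ F]
    [FiniteDimensional ℝ F] [NormedAddCommGroup W] [NormedSpace ℂ W] [NormedSpace ℝ W]
    (P : PG G F W) : FreeS P := by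
  classical
  intro hG N hL
  have := lat_disc P
  have : IsZLattice ℝ (lat P).toIntSubmodule := ⟨hL.span⟩
  obtain ⟨b, hb⟩ : ∃ b : Module.Basis (Module.Free.ChooseBasisIndex ℤ (lat P).toIntSubmodule) ℝ F,
      ∀ v, v ∈ lat P ↔ ∀ i, ∃ z : ℤ, (z : ℝ) = b.repr v i := by
    refine ⟨(Module.Free.chooseBasis ℤ (lat P).toIntSubmodule).ofZLatticeBasis ℝ _, fun v => ?_⟩
    have h1 := ((Module.Free.chooseBasis ℤ (lat P).toIntSubmodule).ofZLatticeBasis ℝ
      _).mem_span_iff_repr_mem ℤ v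
    rw [Module.Basis.ofZLatticeBasis_span] at h1
    exact h1
  have hbm : ∀ j, b j ∈ lat P := fun j => (hb _).2 fun i => by
    rw [b.repr_self_apply]
    split_ifs
    exacts [⟨1, by simp⟩, ⟨0, by simp⟩]
  choose M hM using fun γ j i => (hb _).1 (lat_A hL γ _ (hbm j)) i
  have hA : ∀ γ v i, b.repr (P.A γ v) i = ∑ j, (M γ j i : ℝ) * b.repr v j := by
    intro γ v i
    conv_lhs => rw [← b.sum_repr v]
    simp only [map_sum, map_smul, Finsupp.coe_finsetSum, Finset.sum_apply, Finsupp.smul_apply,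
      smul_eq_mul, hM]
    exact Finset.sum_congr rfl fun j _ => mul_comm _ _
  have h1 : ∀ γ, P.A γ = 1 ↔ (of fun i j => M γ j i) = 1 := by
    intro γ
    constructor
    · intro h
      ext i j
      refine Int.cast_injective (α := ℝ) ?_
      rw [of_apply, hM, h, one_apply_eq_self, b.repr_self_apply, one_apply]
      by_cases e : i = j
      · simp [e]
      · simp [e, Ne.symm e]
    · intro h
      ext v
      refine b.ext_elem fun i => ?_
      have e : ∀ j, M γ j i = if i = j then 1 else 0 := fun j => congrFun (congrFun h i) j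
      simp [hA, e]
  obtain ⟨H, a1, a2, a3⟩ := alg hG (fun γ => of fun i j => M γ j i) ((h1 1).1 (map_one _))
    (fun a c => by
      ext i j
      refine Int.cast_injective (α := ℝ) ?_
      rw [of_apply, hM, map_mul, mul_apply_eq_comp, hA, mul_apply]
      push_cast
      simp only [of_apply, hM])
    (fun γ i => b.repr (P.c γ) i) fun a c i => by
      rw [P.coc, map_add, Finsupp.add_apply, hA]
      rfl
  refine ⟨H, a1, a2, fun γ hγ k y h => ?_⟩
  obtain ⟨d, d0, d1, d2⟩ := tors hL h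
  obtain ⟨e1, e2⟩ := a3 γ hγ d d0 ((h1 _).1 d2) ((hb _).1 ⟨_, ⟨d1, d2⟩, rfl⟩)
  have e3 := (h1 γ).2 e1
  obtain ⟨t, ⟨t1, t2⟩, t3⟩ := (hb _).2 e2
  have e4 : P.A t⁻¹ = 1 := by rw [← PG.A_inv_mul (P := P) t, t2, mul_one]
  have e5 : t⁻¹ * γ = 1 := P.faith (P.trans h (t1.inv k y (P.mem h).1))
    (by rw [map_mul, e4, e3, mul_one]) (by
      rw [P.coc, PG.c_inv, t3, neg_add_cancel])
  exact ⟨inv_mul_eq_one.1 e5 ▸ t1, e3⟩

end Pool.Agent.Lib.MP_813db1_ag.VH.HB
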