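import Pool.Agent.Lib.MP_813db1_ag.VH.S8.Fb
import Pool.Agent.Lib.MP_bbd4b9_ag.SP.Top

/-! The space of leaves has big canonical class: statements. -/

namespace Pool.Agent.Lib.MP_813db1_ag.VH.HB

open Pool.Agent.Lib.MP_813db1_ag.HS Pool.Agent.Lib.MP_813db1_ag.AS Pool.Agent.Lib.MP_813db1_ag.VH.S8
open MeasureTheory Complex Matrix Filter Topology Set Metric
open scoped ContDiff ComplexOrder Manifold

section pg

variable {G F W : Type} [Group G] [NormedAddCommGroup F] [NormedSpace ℝ F]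
  [NormedAddCommGroup W] [NormedSpace ℂ W] [NormedSpace ℝ W] (P : PG G F W)

/-- the elements of `H` which fix a leaf are translations of all leaves. -/
def Fr (H : Subgroup G) : Prop :=
  H.Normal ∧ H.FiniteIndex ∧ ∀ γ ∈ H, ∀ k y, P.Rel k k γ y y → P.Fx γ ∧ P.A γ = 1

def FreeS : Prop := Group.FG G → ∀ N, P.Lat N → ∃ H, Fr P H

/-- `Z` is the space of leaves, `θ γ k y` is the image under `γ` of the leaf `y` of the chart `k`,
and `Bs` is the quotient by `H`. -/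
structure Lf (H : Subgroup G) {Z Bs Γ : Type} [TopologicalSpace Z] [TopologicalSpace Bs] [Group Γ]
    [MulAction Γ Z] (q : Z → Bs) (θ : G → P.κ → W → Z) (π : H →* Γ) : Prop where
  hq : IsQuotientCoveringMap q Γ
  sur : Function.Surjective π
  ker : ∀ δ : H, π δ = 1 → P.A δ = 1
  eqv : ∀ (δ : H) γ k, ∀ y ∈ P.B k, π δ • θ γ k y = θ (δ * γ) k y
  rel : ∀ γ k δ l, ∀ y ∈ P.B k, ∀ y' ∈ P.B l, θ γ k y = θ δ l y' ↔ P.Rel k l (δ⁻¹ * γ) y y'
  cov : ∀ z, ∃ γ k, ∃ y ∈ P.B k, θ γ k y = z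
  chart : ∀ γ k, ∃ e : OpenPartialHomeomorph Z W, e.target = P.B k ∧
    ∀ y ∈ P.B k, e.symm y = θ γ k y

def LfS : Prop := ∀ N, P.Lat N → ∀ H, Fr P H → ∃ (Z Bs Γ : Type) (_ : TopologicalSpace Z)
  (_ : TopologicalSpace Bs) (_ : Group Γ) (_ : MulAction Γ Z) (_ : T2Space Bs)
  (_ : CompactSpace Bs) (_ : ConnectedSpace Bs) (q : Z → Bs) (θ : G → P.κ → W → Z) (π : H →* Γ),
  Lf P H q θ π

end pg

/-- the complex structure of the space of leaves. -/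
def AtS : Prop := ∀ (G F τ Z Bs Γ : Type) [Group G] [NormedAddCommGroup F] [NormedSpace ℝ F]
  [Fintype τ] [DecidableEq τ] [TopologicalSpace Z] [TopologicalSpace Bs] [Group Γ] [MulAction Γ Z]
  (P : PG G F (V τ)) (H : Subgroup G) (q : Z → Bs) (θ : G → P.κ → V τ → Z) (π : H →* Γ),
  Lf P H q θ π → (∀ k l γ y y', P.Rel k l γ y y' → AnalyticAt ℂ (P.rm k l γ) y) →
  ∃ N : Atl τ Bs, ∀ γ k, ∀ y ∈ P.B k, Lh N (q ∘ θ γ k) y

/-- the period map of a model. -/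
def LocS : Prop := ∀ (ι r : Type) [Fintype ι] [DecidableEq ι] [Fintype r] [DecidableEq r]
  (s : Finset ι) (Q : Mat r) (L : Matrix r (Sg' s) ℂ) (H : V (Ta s) → Mat r)
  (β : V (Ta s) → Mat (Ta s)) (R : ℝ), Mo s Q L H β R → ∀ y ∈ ball (0 : V (Ta s)) R,
    (∀ i j, ph H i j y = 0) ∧ (∀ i k, ca H i y * ca H k y = 0) ∧ ric β y = -β y + tauL H y

section glob

variable {ι X Y : Type} [Fintype ι] [DecidableEq ι] [TopologicalSpace X] [TopologicalSpace Y]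
  (M : Atl ι X) (p : Y → X) (G : Type) [Group G] [MulAction G Y]

variable {M p G} in
/-- the Higgs field has square zero. -/
def Nl {r : Type} [Fintype r] [DecidableEq r] (D : Dt M p G r) : Prop :=
  Loc M p fun _ z s => ∀ i k, ca (D.H ∘ s) i z * ca (D.H ∘ s) k z = 0

/-- the Schwarz lemma. -/
def SchS : Prop := ∀ (r : Type) [Fintype r] [DecidableEq r] (D : Dt M p G r) (τ : X → Mat ι),
  D.PH → D.Tau τ → Nl D → ∃ C : ℝ, 0 < C ∧ ∀ h, M.IsK h → (∀ x, (M.ricF h x + h x).PosSemidef) →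
    ∀ x, ((C : ℂ) • h x - τ x).PosSemidef

/-- the canonical class is big. -/
def Big : Prop := ∃ c : ℝ, 0 < c ∧ ∀ᶠ a : ℕ in atTop, ∃ (n : ℕ) (σ : Fin n → X → ℂ),
  c * (a : ℝ) ^ Fintype.card ι ≤ n ∧ (∀ j, M.HolS a (σ j)) ∧ LinearIndependent ℂ σ

def AmpS : Prop := ∀ (r : Type) [Fintype r] [DecidableEq r] (D : Dt M p G r) (τ β : X → Mat ι),
  D.PH → D.Tau τ → Nl D → M.IsK β → (∀ x, M.ricF β x = -β x + τ x) → Big M

variable {G} in
/-- `f` is a holomorphic submersion whose fibres are tangent to the kernel of `b`. -/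
structure Sb (H : Subgroup G) {τ Bs : Type} [Fintype τ] [DecidableEq τ] [TopologicalSpace Bs]
    (N : Atl τ Bs) (b : X → Mat ι) (f : Y → Bs) : Prop where
  inv : ∀ γ ∈ H, ∀ y, f (γ • y) = f y
  sur : Function.Surjective f
  loc : Loc M p fun e z s => ContinuousAt (f ∘ s) z ∧ AnalyticAt ℂ (N.ch (f (s z)) ∘ f ∘ s) z ∧
    Function.Surjective (fderiv ℂ (N.ch (f (s z)) ∘ f ∘ s) z) ∧
    ∀ v, fderiv ℂ (N.ch (f (s z)) ∘ f ∘ s) z v = 0 ↔ nV (M.repF b e z) v = 0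

/-- the Bogomolov sheaf. -/
def BogS [ChartedSpace (ι → ℂ) X] : Prop := ∀ (_ : Kahler ι X) (H : Subgroup G) (τ Bs : Type)
  [Fintype τ] [DecidableEq τ] [Nonempty τ] [TopologicalSpace Bs] (N : Atl τ Bs) (b : X → Mat ι)
  (f : Y → Bs), H.FiniteIndex → Sb M p H N b f → Big N → ¬MP_bbd4b9_ag.SP.NoBog ι X

end glob

section fb

variable {ι X Y G r : Type} [Fintype ι] [DecidableEq ι] [TopologicalSpace X] [TopologicalSpace Y]
  [Group G] [MulAction G Y] [Fintype r] [DecidableEq r] {M : Atl ι X} {p : Y → X}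
  {E : Dt M p G r} {Q : Mat r} {c : G → V r} {x : Y → V r} {h : X → Mat ι} {s : Finset ι}
  {L : Matrix r (Sg' s) ℂ} (B : Fb E Q c x h s L) (ok : B.Ok)

/-- the datum and the metric on the space of leaves. -/
def DtS : Prop := ∀ (H : Subgroup G) (Z Bs Γ : Type) [TopologicalSpace Z] [TopologicalSpace Bs]
  [Group Γ] [MulAction Γ Z] (q : Z → Bs) (θ : G → B.κ → V (Ta s) → Z) (π : H →* Γ)
  (N : Atl (Ta s) Bs), Lf (B.pg ok) H q θ π → (∀ γ k, ∀ y ∈ B.Bl k, Lh N (q ∘ θ γ k) y) →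
  ∃ (D : Dt N q Γ r) (τ β : Bs → Mat (Ta s)), D.PH ∧ D.Tau τ ∧ Nl D ∧ N.IsK β ∧
    ∀ b, N.ricF β b = -β b + τ b

/-- the projection to the space of leaves. -/
def SubS : Prop := ∀ (H : Subgroup G) (Z Bs Γ : Type) [TopologicalSpace Z] [TopologicalSpace Bs]
  [Group Γ] [MulAction Γ Z] (q : Z → Bs) (θ : G → B.κ → V (Ta s) → Z) (π : H →* Γ)
  (N : Atl (Ta s) Bs), Lf (B.pg ok) H q θ π → (∀ γ k, ∀ y ∈ B.Bl k, Lh N (q ∘ θ γ k) y) →
  ∃ f, Sb M p H N (fun u => -M.ricF h u) f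

end fb

end Pool.Agent.Lib.MP_813db1_ag.VH.HB
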